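import Pool.Agent.Helper31.PS.Refl

set_option autoImplicit false

/-!
Line coordinates on the phase space; comparison of the measures of sets of states and of sets of
lines.
-/

namespace Pool.Agent.Helper31.PS

open Set MeasureTheory Filter Topology Metric Pool.Agent.W780.BB Pool.Agent.W780.PG
  Pool.Agent.TH103.BL

open scoped Real ENNReal ComplexConjugate

variable {n : ℕ}

/-- line coordinates on the states -/
noncomputable def Psi (x : (ℝ × ℝ) × ℝ) : ℂ × ℝ := (pt x.1 x.2, x.1.1)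

lemma mp_mul_dir (θ : ℝ) : MeasurePreserving (fun w : ℂ => dir θ * w) := by
  have h : (fun w : ℂ => dir θ * w) = rotation ⟨dir θ, by
      exact mem_sphere_zero_iff_norm.2 (norm_dir θ)⟩ := by
    ext w; rfl
  rw [h]
  exact LinearIsometryEquiv.measurePreserving _

lemma continuous_dir : Continuous dir := by
  unfold dir; fun_prop

lemma mp_Psi : MeasurePreserving Psi := by
  have h1 : MeasurePreserving (MeasurableEquiv.prodAssoc : (ℝ × ℝ) × ℝ ≃ᵐ ℝ × ℝ × ℝ)
      (((volume : Measure ℝ).prod volume).prod volume)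
      ((volume : Measure ℝ).prod (volume.prod volume)) :=
    ⟨MeasurableEquiv.prodAssoc.measurable, Measure.prodAssoc_prod⟩
  have h2 : MeasurePreserving (fun x : ℝ × (ℝ × ℝ) => (x.1, x.2.swap))
      ((volume : Measure ℝ).prod (volume.prod volume))
      ((volume : Measure ℝ).prod (volume.prod volume)) :=
    (MeasurePreserving.id (volume : Measure ℝ)).prod Measure.measurePreserving_swap
  have h3 : MeasurePreserving (fun x : ℝ × (ℝ × ℝ) => (x.1, Complex.measurableEquivRealProd.symm x.2))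
      ((volume : Measure ℝ).prod (volume.prod volume))
      ((volume : Measure ℝ).prod (volume : Measure ℂ)) :=
    (MeasurePreserving.id (volume : Measure ℝ)).prod
      (Complex.volume_preserving_equiv_real_prod.symm Complex.measurableEquivRealProd)
  have h4 : MeasurePreserving (fun x : ℝ × ℂ => (x.1, dir x.1 * x.2))
      ((volume : Measure ℝ).prod (volume : Measure ℂ))
      ((volume : Measure ℝ).prod (volume : Measure ℂ)) := by
    refine MeasurePreserving.skew_product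
      (g := fun t w => dir t * w) (MeasurePreserving.id _) ?_ ?_
    · have : Continuous (Function.uncurry fun (t : ℝ) (w : ℂ) => dir t * w) := by
        unfold Function.uncurry dir; fun_prop
      exact this.measurable
    · exact Filter.Eventually.of_forall fun t => (mp_mul_dir t).map_eq
  have h5 : MeasurePreserving (Prod.swap : ℝ × ℂ → ℂ × ℝ)
      ((volume : Measure ℝ).prod (volume : Measure ℂ))
      ((volume : Measure ℂ).prod (volume : Measure ℝ)) := Measure.measurePreserving_swap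
  have h6 := h5.comp (h4.comp (h3.comp (h2.comp h1)))
  have h7 : Psi = Prod.swap ∘ (fun x : ℝ × ℂ => (x.1, dir x.1 * x.2)) ∘
      (fun x : ℝ × (ℝ × ℝ) => (x.1, Complex.measurableEquivRealProd.symm x.2)) ∘
      (fun x : ℝ × (ℝ × ℝ) => (x.1, x.2.swap)) ∘
      (MeasurableEquiv.prodAssoc : (ℝ × ℝ) × ℝ ≃ᵐ ℝ × ℝ × ℝ) := by
    funext x
    obtain ⟨⟨θ, s⟩, u⟩ := x
    simp only [Psi, pt, Function.comp, MeasurableEquiv.prodAssoc, MeasurableEquiv.coe_mk,
      Equiv.prodAssoc_apply, Prod.swap_prod_mk, Complex.measurableEquivRealProd_symm_apply]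
    ext
    · simp only
      congr 1
      apply Complex.ext <;> simp
    · rfl
  rw [h7]
  exact h6

/-- the lines for which two sets of lines differ -/
def Dl (S S' : Set (ℝ × ℝ)) : Set (ℝ × ℝ) := {y | ¬ (y ∈ S ↔ y ∈ S')}

/-- the states for which two sets of states differ -/
def Ds (A A' : Set (ℂ × ℝ)) : Set (ℂ × ℝ) := {x | ¬ (x ∈ A ↔ x ∈ A')}

lemma meas_Dl {S S' : Set (ℝ × ℝ)} (h : MeasurableSet S) (h' : MeasurableSet S') :
    MeasurableSet (Dl S S') := by
  have : Dl S S' = (S ∩ S' ∪ Sᶜ ∩ S'ᶜ)ᶜ := by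
    ext y; simp only [Dl, mem_ofPred_eq, mem_compl_iff, mem_union, mem_inter_iff]; tauto
  rw [this]
  exact ((h.inter h').union (h.compl.inter h'.compl)).compl

lemma meas_Ds {S S' : Set (ℂ × ℝ)} (h : MeasurableSet S) (h' : MeasurableSet S') :
    MeasurableSet (Ds S S') := by
  have : Ds S S' = (S ∩ S' ∪ Sᶜ ∩ S'ᶜ)ᶜ := by
    ext y; simp only [Ds, mem_ofPred_eq, mem_compl_iff, mem_union, mem_inter_iff]; tauto
  rw [this]
  exact ((h.inter h').union (h.compl.inter h'.compl)).compl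

lemma open_in_reg : IsOpen {x : (Fin (n + 3) → ℂ) × ℂ | ∀ i, 0 < lft (x.1 i) (x.1 (i + 1)) x.2} := by
  have : {x : (Fin (n + 3) → ℂ) × ℂ | ∀ i, 0 < lft (x.1 i) (x.1 (i + 1)) x.2} =
      ⋂ i, {x : (Fin (n + 3) → ℂ) × ℂ | 0 < lft (x.1 i) (x.1 (i + 1)) x.2} := by
    ext x; simp
  rw [this]
  refine isOpen_iInter_of_finite fun i => ?_
  refine isOpen_lt continuous_const ?_
  unfold lft
  have h1 : Continuous fun x : (Fin (n + 3) → ℂ) × ℂ => x.1 i := by fun_prop
  have h2 : Continuous fun x : (Fin (n + 3) → ℂ) × ℂ => x.1 (i + 1) := by fun_prop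
  exact Complex.continuous_im.comp ((Complex.continuous_conj.comp (h2.sub h1)).mul
    (continuous_snd.sub h1))

/-- the measure of a set of lines near `x₀` is controlled by the measure of the set of states -/
theorem box {p : Fin (n + 3) → ℂ} (hp : IsConvexPolygon p) {x₀ : ℝ × ℝ} (hx₀ : x₀ ∈ Lall p) :
    ∃ ρ κ η : ℝ, 0 < ρ ∧ 0 < κ ∧ 0 < η ∧ ∀ q : Fin (n + 3) → ℂ, IsConvexPolygon q → ‖q - p‖ < η →
      ∀ A A' : Set (ℂ × ℝ), MeasurableSet A → MeasurableSet A' → IsInvariant p A →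
      IsInvariant q A' → ENNReal.ofReal κ * volume (ball x₀ ρ ∩ Dl (Ln p A) (Ln q A')) ≤
        volume (phase p ∩ Ds A A') := by
  obtain ⟨z₀, hz₀, hsp⟩ := hx₀
  set u₀ : ℝ := (dir (-x₀.1) * z₀).re with hu₀
  have hz : pt x₀ u₀ = z₀ := by
    have := eq_pt z₀ x₀.1
    rw [hsp] at this
    exact this.symm
  have hev : ∀ᶠ x in 𝓝 (p, (x₀, u₀)), ∀ i, 0 < lft (x.1 i) (x.1 (i + 1)) (pt x.2.1 x.2.2) := by
    have hc : Continuous fun x : (Fin (n + 3) → ℂ) × ((ℝ × ℝ) × ℝ) => (x.1, pt x.2.1 x.2.2) :=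
      continuous_fst.prodMk (continuous_pt.comp continuous_snd)
    refine (open_in_reg.preimage hc).mem_nhds ?_
    show ∀ i, 0 < lft (p i) (p (i + 1)) (pt x₀ u₀)
    rw [hz]
    rw [reg_eq hp] at hz₀
    exact hz₀
  obtain ⟨r, hr, H⟩ := Metric.eventually_nhds_iff.1 hev
  set r' : ℝ := min r 1 with hr'
  have hr'0 : 0 < r' := lt_min hr one_pos
  have hr'1 : r' ≤ 1 := min_le_right _ _
  have key : ∀ q : Fin (n + 3) → ℂ, IsConvexPolygon q → ‖q - p‖ < r' → ∀ x : ℝ × ℝ,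
      x ∈ ball x₀ r' → ∀ u : ℝ, u ∈ ball u₀ r' → pt x u ∈ region q := by
    intro q hq hqp x hx u hu
    rw [reg_eq hq]
    refine H (y := (q, (x, u))) ?_
    rw [Prod.dist_eq, Prod.dist_eq]
    have h1 : r' ≤ r := min_le_left _ _
    refine max_lt ?_ (max_lt ?_ ?_)
    · rw [dist_eq_norm]; exact hqp.trans_le h1
    · exact lt_of_lt_of_le hx h1
    · exact lt_of_lt_of_le hu h1
  refine ⟨r', 2 * r', r', hr'0, by positivity, hr'0, fun q hq hqp A A' hA hA' hi hi' => ?_⟩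
  set Δ : Set (ℝ × ℝ) := Dl (Ln p A) (Ln q A') with hΔ
  set S : Set (ℂ × ℝ) := {x | x.1 ∈ region p} ∩ Ds A A' with hS
  have hSm : MeasurableSet S :=
    ((open_region p).preimage continuous_fst).measurableSet.inter (meas_Ds hA hA')
  have hSp : ∀ z θ, (z, θ + 2 * π) ∈ S ↔ (z, θ) ∈ S := by
    intro z θ
    simp only [hS, Ds, mem_inter_iff, mem_ofPred_eq]
    rw [hi.periodic, hi'.periodic]
  have hstrip := strip S hSm hSp (x₀.1 - r')
  have e1 : S ∩ (univ ×ˢ Ico 0 (2 * π)) = phase p ∩ Ds A A' := by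
    ext x
    simp only [hS, phase, mem_inter_iff, mem_ofPred_eq, mem_prod, mem_univ, true_and]
    tauto
  rw [e1] at hstrip
  rw [← hstrip]
  have hsub : (ball x₀ r' ∩ Δ) ×ˢ ball u₀ r' ⊆
      Psi ⁻¹' (S ∩ (univ ×ˢ Ico (x₀.1 - r') (x₀.1 - r' + 2 * π))) := by
    rintro ⟨x, u⟩ ⟨⟨hx1, hx2⟩, hu⟩
    simp only at hx1 hx2 hu
    have h1 : pt x u ∈ region p := key p hp (by simpa using hr'0) x hx1 u hu
    have h2 : pt x u ∈ region q := key q hq hqp x hx1 u hu
    have h3 : |x.1 - x₀.1| < r' := by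
      rw [← Real.dist_eq]
      exact lt_of_le_of_lt (by rw [Prod.dist_eq]; exact le_max_left _ _) hx1
    rw [abs_lt] at h3
    refine ⟨⟨h1, ?_⟩, mem_univ _, ?_, ?_⟩
    · show ¬ ((pt x u, x.1) ∈ A ↔ (pt x u, x.1) ∈ A')
      rw [← mem_Ln' hi h1 (sp_pt x u), ← mem_Ln' hi' h2 (sp_pt x u)]
      exact hx2
    · show x₀.1 - r' ≤ x.1
      linarith
    · show x.1 < x₀.1 - r' + 2 * π
      have := Real.pi_gt_three
      linarith
  have hm : MeasurableSet (S ∩ (univ ×ˢ Ico (x₀.1 - r') (x₀.1 - r' + 2 * π))) :=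
    hSm.inter (MeasurableSet.univ.prod measurableSet_Ico)
  rw [← mp_Psi.measure_preimage hm.nullMeasurableSet]
  refine le_trans (le_of_eq ?_) (measure_mono hsub)
  have hv : (volume : Measure ((ℝ × ℝ) × ℝ)) = (volume : Measure (ℝ × ℝ)).prod volume := rfl
  rw [hv, Measure.prod_prod, Real.volume_ball, mul_comm]

/-- if almost all lines are in the set then the set of states is trivial -/
theorem trivial_of_ae {p : Fin (n + 3) → ℂ} {A : Set (ℂ × ℝ)} (hA : MeasurableSet A)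
    (hi : IsInvariant p A)
    (h : (∀ᵐ y : ℝ × ℝ, y ∈ Lall p → y ∈ Ln p A) ∨ (∀ᵐ y : ℝ × ℝ, y ∈ Lall p → y ∉ Ln p A)) :
    IsTrivial p A := by
  have hph : MeasurableSet (phase p) := (open_region p).measurableSet.prod measurableSet_Ico
  have hv : (volume : Measure ((ℝ × ℝ) × ℝ)) = (volume : Measure (ℝ × ℝ)).prod volume := rfl
  have hx : ∀ x : (ℝ × ℝ) × ℝ, Psi x ∈ phase p → x.1 ∈ Lall p ∧ (x.1 ∈ Ln p A ↔ Psi x ∈ A) := by
    rintro ⟨x, u⟩ ⟨h1, -⟩
    have h2 : pt x u ∈ region p := h1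
    exact ⟨⟨_, h2, sp_pt x u⟩, mem_Ln' hi h2 (sp_pt x u)⟩
  rcases h with h | h
  · right
    have hn : volume {y : ℝ × ℝ | ¬ (y ∈ Lall p → y ∈ Ln p A)} = 0 := h
    rw [← mp_Psi.measure_preimage (hph.diff hA).nullMeasurableSet]
    refine measure_mono_null (t := {y : ℝ × ℝ | ¬ (y ∈ Lall p → y ∈ Ln p A)} ×ˢ univ) ?_ ?_
    · rintro x ⟨h1, h2⟩
      obtain ⟨h3, h4⟩ := hx x h1
      refine ⟨?_, mem_univ _⟩
      intro h5
      exact h2 (h4.1 (h5 h3))
    · rw [hv, Measure.prod_prod, hn, zero_mul]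
  · left
    have hn : volume {y : ℝ × ℝ | ¬ (y ∈ Lall p → y ∉ Ln p A)} = 0 := h
    rw [← mp_Psi.measure_preimage (hph.inter hA).nullMeasurableSet]
    refine measure_mono_null (t := {y : ℝ × ℝ | ¬ (y ∈ Lall p → y ∉ Ln p A)} ×ˢ univ) ?_ ?_
    · rintro x ⟨h1, h2⟩
      obtain ⟨h3, h4⟩ := hx x h1
      refine ⟨?_, mem_univ _⟩
      intro h5
      exact h5 h3 (h4.2 h2)
    · rw [hv, Measure.prod_prod, hn, zero_mul]

end Pool.Agent.Helper31.PS
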