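import Pool.Agent.Helper31.PS.Flow

set_option autoImplicit false

/-!
A set of lines which is nearly invariant under the small rotations about two points is constant near
every line which is not perpendicular to the line through the two points.
-/

namespace Pool.Agent.Helper31.PS

open Set MeasureTheory Filter Topology Metric Pool.Agent.W780.BB

open scoped Real ENNReal

lemma hasDerivAt_sp (z : ℂ) (u : ℝ) : HasStrictDerivAt (sp z) (sp z (u + π / 2)) u := by
  have h : HasStrictDerivAt (fun u => z.im * Real.cos u - z.re * Real.sin u)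
      (z.im * (-Real.sin u) - z.re * Real.cos u) u :=
    ((Real.hasStrictDerivAt_cos u).const_mul _).sub ((Real.hasStrictDerivAt_sin u).const_mul _)
  have e : sp z (u + π / 2) = z.im * (-Real.sin u) - z.re * Real.cos u := by
    unfold sp; rw [Real.cos_add_pi_div_two, Real.sin_add_pi_div_two]
  rw [e]; exact h

lemma vol_cB (y : ℝ × ℝ) {r : ℝ} (hr : 0 ≤ r) :
    volume (closedBall y r) = ENNReal.ofReal (4 * r ^ 2) := by
  rw [← closedBall_prod_same, Measure.volume_eq_prod, Measure.prod_prod, Real.volume_closedBall,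
    Real.volume_closedBall, ← ENNReal.ofReal_mul (by positivity)]
  congr 1; ring

lemma dens_pt {S : Set (ℝ × ℝ)} (hS : MeasurableSet S) {B : Set (ℝ × ℝ)}
    (h : ¬ ∀ᵐ y : ℝ × ℝ, y ∈ B → y ∉ S) :
    ∃ y ∈ B, ∀ᶠ r in 𝓝[>] (0 : ℝ), volume (closedBall y r ∩ Sᶜ) ≤ ENNReal.ofReal (r ^ 2 / 25) ∧
      ENNReal.ofReal (3 * r ^ 2) ≤ volume (closedBall y r ∩ S) := by
  by_contra hcon
  apply h
  filter_upwards [Besicovitch.ae_tendsto_measure_inter_div_of_measurableSet
    (volume : Measure (ℝ × ℝ)) hS] with y hy hyB hyS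
  refine hcon ⟨y, hyB, ?_⟩
  rw [indicator_of_mem hyS] at hy
  have h1 : ∀ᶠ r in 𝓝[>] (0 : ℝ), ENNReal.ofReal (99 / 100) <
      volume (S ∩ closedBall y r) / volume (closedBall y r) := by
    refine hy.eventually (lt_mem_nhds ?_)
    rw [Pi.one_apply, ← ENNReal.ofReal_one]
    exact (ENNReal.ofReal_lt_ofReal_iff one_pos).2 (by norm_num)
  filter_upwards [h1, self_mem_nhdsWithin] with r hr hr0
  have hr0' : 0 < r := hr0
  rw [vol_cB y hr0'.le, inter_comm] at hr
  have hpos : ENNReal.ofReal (4 * r ^ 2) ≠ 0 := by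
    rw [Ne, ENNReal.ofReal_eq_zero, not_le]; positivity
  rw [ENNReal.lt_div_iff_mul_lt (Or.inl hpos) (Or.inl ENNReal.ofReal_ne_top),
    ← ENNReal.ofReal_mul (by norm_num)] at hr
  refine ⟨?_, ?_⟩
  · have h2 := measure_inter_add_diff (μ := (volume : Measure (ℝ × ℝ))) (closedBall y r) hS
    rw [vol_cB y hr0'.le, diff_eq] at h2
    by_contra h3
    push Not at h3
    have h4 : ENNReal.ofReal (99 / 100 * (4 * r ^ 2)) + ENNReal.ofReal (r ^ 2 / 25) <
        volume (closedBall y r ∩ S) + volume (closedBall y r ∩ Sᶜ) := ENNReal.add_lt_add hr h3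
    rw [h2, ← ENNReal.ofReal_add (by positivity) (by positivity)] at h4
    rw [ENNReal.ofReal_lt_ofReal_iff (by positivity)] at h4
    nlinarith
  · refine le_trans (ENNReal.ofReal_le_ofReal ?_) hr.le
    nlinarith [sq_nonneg r]

theorem LC_of_two {S : Set (ℝ × ℝ)} (hS : MeasurableSet S) {P Q : ℂ} {x : ℝ × ℝ}
    (hPQ : sp (P - Q) (x.1 + π / 2) ≠ 0) (hP : AI S P x) (hQ : AI S Q x) : LC S x := by
  by_contra hLC
  obtain ⟨ρ₁, hρ₁, H₁⟩ := hP
  obtain ⟨ρ₂, hρ₂, H₂⟩ := hQ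
  set ρ : ℝ := min ρ₁ ρ₂ with hρ
  have hρ0 : 0 < ρ := lt_min hρ₁ hρ₂
  set M : ℝ := 2 + ‖P‖ + ‖Q‖ with hM
  have hM0 : 0 < M := by positivity
  -- the size of the rotations
  obtain ⟨δ, hδ0, hδ1, hδ2, hδ3⟩ : ∃ δ : ℝ, 0 < δ ∧ δ ≤ 1 ∧ M * (3 * δ) ≤ 1 / 20 ∧
      M * (3 * δ) ≤ ρ / 4 := by
    refine ⟨min 1 (min (1 / (60 * M)) (ρ / (12 * M))), by positivity, min_le_left _ _, ?_, ?_⟩
    · calc M * (3 * min 1 (min (1 / (60 * M)) (ρ / (12 * M)))) ≤ M * (3 * (1 / (60 * M))) := by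
            gcongr; exact (min_le_right _ _).trans (min_le_left _ _)
        _ = 1 / 20 := by field_simp; norm_num
    · calc M * (3 * min 1 (min (1 / (60 * M)) (ρ / (12 * M)))) ≤ M * (3 * (ρ / (12 * M))) := by
            gcongr; exact (min_le_right _ _).trans (min_le_right _ _)
        _ = ρ / 4 := by field_simp; norm_num
  have hδρ : 3 * δ ≤ ρ / 4 := by
    have : 3 * δ ≤ M * (3 * δ) := by
      have : (1:ℝ) ≤ M := by rw [hM]; linarith [norm_nonneg P, norm_nonneg Q]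
      nlinarith
    linarith
  -- solving for the intermediate direction
  have hopen : sp (P - Q) '' ball x.1 δ ∈ 𝓝 (sp (P - Q) x.1) := by
    rw [← (hasDerivAt_sp (P - Q) x.1).map_nhds_eq hPQ]
    exact image_mem_map (ball_mem_nhds _ hδ0)
  have hcont : ContinuousAt (fun q : (ℝ × ℝ) × (ℝ × ℝ) =>
      q.2.2 - q.1.2 + sp P q.1.1 - sp Q q.2.1) (x, x) := by
    have : Continuous (fun q : (ℝ × ℝ) × (ℝ × ℝ) => q.2.2 - q.1.2 + sp P q.1.1 - sp Q q.2.1) := by
      unfold sp; fun_prop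
    exact this.continuousAt
  have hval : (fun q : (ℝ × ℝ) × (ℝ × ℝ) => q.2.2 - q.1.2 + sp P q.1.1 - sp Q q.2.1) (x, x) =
      sp (P - Q) x.1 := by
    simp only [sub_self, zero_add]; rw [sp_sub]
  have hev : ∀ᶠ q in 𝓝 (x, x), q.2.2 - q.1.2 + sp P q.1.1 - sp Q q.2.1 ∈
      sp (P - Q) '' ball x.1 δ := by
    apply hcont
    rw [hval]; exact hopen
  obtain ⟨κ₀, hκ₀, hk₀⟩ := Metric.eventually_nhds_iff.1 hev
  set κ : ℝ := min κ₀ δ with hκ
  have hκ0 : 0 < κ := lt_min hκ₀ hδ0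
  have hκδ : κ ≤ δ := min_le_right _ _
  -- density points
  obtain ⟨y, hyB, hy⟩ : ∃ y ∈ ball x κ, ∀ᶠ r in 𝓝[>] (0 : ℝ),
      volume (closedBall y r ∩ Sᶜ) ≤ ENNReal.ofReal (r ^ 2 / 25) ∧
      ENNReal.ofReal (3 * r ^ 2) ≤ volume (closedBall y r ∩ S) := by
    apply dens_pt hS
    intro h
    exact hLC ⟨κ, hκ0, Or.inr h⟩
  obtain ⟨y', hyB', hy'⟩ : ∃ y ∈ ball x κ, ∀ᶠ r in 𝓝[>] (0 : ℝ),
      volume (closedBall y r ∩ Sᶜᶜ) ≤ ENNReal.ofReal (r ^ 2 / 25) ∧
      ENNReal.ofReal (3 * r ^ 2) ≤ volume (closedBall y r ∩ Sᶜ) := by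
    apply dens_pt hS.compl
    intro h
    exact hLC ⟨κ, hκ0, Or.inl (h.mono fun z hz hzB => by simpa using hz hzB)⟩
  have hy4 : ∀ᶠ r in 𝓝[>] (0 : ℝ), ENNReal.ofReal (3 * (r / 4) ^ 2) ≤
      volume (closedBall y' (r / 4) ∩ Sᶜ) := by
    have ht : Tendsto (fun r : ℝ => r / 4) (𝓝[>] 0) (𝓝[>] 0) := by
      refine tendsto_nhdsWithin_iff.2 ⟨?_, ?_⟩
      · have : Tendsto (fun r : ℝ => r / 4) (𝓝 0) (𝓝 (0 / 4)) := (continuous_id.div_const 4).tendsto 0
        rw [zero_div] at this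
        exact this.mono_left nhdsWithin_le_nhds
      · filter_upwards [self_mem_nhdsWithin] with r hr
        have : (0:ℝ) < r := hr
        show (0:ℝ) < r / 4
        positivity
    exact (ht.eventually hy').mono fun r hr => hr.2
  obtain ⟨τ, hτ, hτ', hτ0, hτδ⟩ : ∃ τ : ℝ,
      volume (closedBall y τ ∩ Sᶜ) ≤ ENNReal.ofReal (τ ^ 2 / 25) ∧
      ENNReal.ofReal (3 * (τ / 4) ^ 2) ≤ volume (closedBall y' (τ / 4) ∩ Sᶜ) ∧ 0 < τ ∧ τ < δ := by
    have h3 : ∀ᶠ r in 𝓝[>] (0 : ℝ), 0 < r ∧ r < δ := by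
      filter_upwards [self_mem_nhdsWithin, nhdsWithin_le_nhds (gt_mem_nhds hδ0)] with r h1 h2
      exact ⟨h1, h2⟩
    obtain ⟨τ, h⟩ := ((hy.and hy4).and h3).exists
    exact ⟨τ, h.1.1.1, h.1.2, h.2.1, h.2.2⟩
  -- the rotations
  have hyx : dist y x < κ := hyB
  have hyx' : dist y' x < κ := hyB'
  have hy1 : |y.1 - x.1| < δ := by
    rw [← Real.dist_eq]
    exact lt_of_le_of_lt (by rw [Prod.dist_eq]; exact le_max_left _ _) (hyx.trans_le hκδ)
  have hy1' : |y'.1 - x.1| < δ := by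
    rw [← Real.dist_eq]
    exact lt_of_le_of_lt (by rw [Prod.dist_eq]; exact le_max_left _ _) (hyx'.trans_le hκδ)
  obtain ⟨u, hu, hWu⟩ := hk₀ (y := (y, y')) (by
    rw [Prod.dist_eq]
    exact max_lt (hyx.trans_le (min_le_left _ _)) (hyx'.trans_le (min_le_left _ _)))
  have hux : |u - x.1| < δ := by rw [← Real.dist_eq]; exact hu
  set α : ℝ := u - y.1 with hα
  set β : ℝ := y'.1 - u with hβ
  have hα2 : |α| < 2 * δ := by
    rw [hα]
    calc |u - y.1| = |(u - x.1) - (y.1 - x.1)| := by congr 1; ring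
      _ ≤ |u - x.1| + |y.1 - x.1| := abs_sub _ _
      _ < 2 * δ := by linarith
  have hβ2 : |β| < 2 * δ := by
    rw [hβ]
    calc |y'.1 - u| = |(y'.1 - x.1) - (u - x.1)| := by congr 1; ring
      _ ≤ |y'.1 - x.1| + |u - x.1| := abs_sub _ _
      _ < 2 * δ := by linarith
  have hexact : ph Q β (ph P α y) = y' := by
    simp only at hWu
    rw [sp_sub] at hWu
    ext
    · simp only [ph, hα, hβ]; ring
    · have e1 : y.1 + α = u := by rw [hα]; ring
      have e2 : u + β = y'.1 := by rw [hβ]; ring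
      simp only [ph, e1, e2]
      linarith
  -- continuity in the parameters
  have hcc : ∀ᶠ q in 𝓝 ((P, α), (Q, β)), ph q.2.1 q.2.2 (ph q.1.1 q.1.2 y) ∈ ball y' (τ / 8) := by
    have hc1 : Continuous fun q : (ℂ × ℝ) × (ℂ × ℝ) => ph q.2.1 q.2.2 (ph q.1.1 q.1.2 y) := by
      unfold ph sp; fun_prop
    apply hc1.continuousAt
    show ball y' (τ / 8) ∈ 𝓝 (ph Q β (ph P α y))
    rw [hexact]
    exact ball_mem_nhds _ (by positivity)
  obtain ⟨η, hη, hkη⟩ := Metric.eventually_nhds_iff.1 hcc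
  set ε : ℝ := min (min η δ) (τ ^ 2 / 20) with hε
  have hε0 : 0 < ε := lt_min (lt_min hη hδ0) (by positivity)
  have hεη : ε ≤ η := (min_le_left _ _).trans (min_le_left _ _)
  have hεδ : ε ≤ δ := (min_le_left _ _).trans (min_le_right _ _)
  have hετ : ε ≤ τ ^ 2 / 20 := min_le_right _ _
  obtain ⟨P', α', hP', hα', hD1⟩ := H₁ α (by
    have : ρ ≤ ρ₁ := min_le_left _ _
    linarith) ε hε0
  obtain ⟨Q', β', hQ', hβ', hD2⟩ := H₂ β (by
    have : ρ ≤ ρ₂ := min_le_right _ _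
    linarith) ε hε0
  have hα3 : |α'| ≤ 3 * δ := by
    have : |α'| ≤ |α' - α| + |α| := by
      have := abs_add_le (α' - α) α
      simpa using this
    linarith
  have hβ3 : |β'| ≤ 3 * δ := by
    have : |β'| ≤ |β' - β| + |β| := by
      have := abs_add_le (β' - β) β
      simpa using this
    linarith
  have hPM : 1 + ‖P'‖ ≤ M := by
    have := norm_le_norm_add_norm_sub' P' P
    rw [hM]; linarith [norm_nonneg Q]
  have hQM : 1 + ‖Q'‖ ≤ M := by
    have := norm_le_norm_add_norm_sub' Q' Q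
    rw [hM]; linarith [norm_nonneg P]
  have hPα : ‖P'‖ * |α'| ≤ 1 / 20 := by
    have : ‖P'‖ * |α'| ≤ M * (3 * δ) := mul_le_mul (by linarith) hα3 (abs_nonneg _) hM0.le
    linarith
  have hQβ : ‖Q'‖ * |β'| ≤ 1 / 20 := by
    have : ‖Q'‖ * |β'| ≤ M * (3 * δ) := mul_le_mul (by linarith) hβ3 (abs_nonneg _) hM0.le
    linarith
  set g : ℝ × ℝ → ℝ × ℝ := fun z => ph Q' β' (ph P' α' z) with hg
  have hgy : dist (g y) y' < τ / 8 := by
    refine hkη (y := ((P', α'), (Q', β'))) ?_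
    rw [Prod.dist_eq, Prod.dist_eq, Prod.dist_eq]
    refine max_lt (max_lt ?_ ?_) (max_lt ?_ ?_)
    · rw [dist_eq_norm]; exact hP'.trans_le hεη
    · rw [Real.dist_eq]; exact hα'.trans_le hεη
    · rw [dist_eq_norm]; exact hQ'.trans_le hεη
    · rw [Real.dist_eq]; exact hβ'.trans_le hεη
  have hinv : ∀ z, dist z y ≤ 9 / 8 * dist (g z) (g y) := by
    intro z
    have hz : ∀ z, ph P' (-α') (ph Q' (-β') (g z)) = z := by
      intro z
      rw [hg]
      simp only [ph_ph]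
      rw [show β' + -β' = 0 by ring, ph_zero, ph_ph, show α' + -α' = 0 by ring, ph_zero]
    have h1 : dist z y = dist (ph P' (-α') (ph Q' (-β') (g z))) (ph P' (-α') (ph Q' (-β') (g y))) := by
      rw [hz, hz]
    rw [h1]
    have h2 := lip_ph P' (-α') (ph Q' (-β') (g z)) (ph Q' (-β') (g y))
    have h3 := lip_ph Q' (-β') (g z) (g y)
    rw [abs_neg] at h2 h3
    have h4 : 0 ≤ dist (g z) (g y) := dist_nonneg
    have h5 : 0 ≤ dist (ph Q' (-β') (g z)) (ph Q' (-β') (g y)) := dist_nonneg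
    nlinarith
  have hmp : MeasurePreserving g := (mp_ph Q' β').comp (mp_ph P' α')
  have hsub : g ⁻¹' (closedBall y' (τ / 4) ∩ Sᶜ) ⊆ (closedBall y τ ∩ Sᶜ) ∪
      ((ball x ρ₁ ∩ Df S (ph P' α')) ∪ ph P' α' ⁻¹' (ball x ρ₂ ∩ Df S (ph Q' β'))) := by
    rintro z ⟨hz1, hz2⟩
    have hz3 : dist (g z) y' ≤ τ / 4 := hz1
    have hz4 : dist (g z) (g y) ≤ 3 / 8 * τ := by
      have := dist_triangle_right (g z) (g y) y'
      linarith
    have hz5 : dist z y ≤ τ := by
      have := hinv z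
      linarith
    have hzx : dist z x < 2 * δ := by
      have := dist_triangle z y x
      linarith
    by_cases hzS : z ∈ S
    · right
      by_cases hzP : ph P' α' z ∈ S
      · right
        refine ⟨?_, ?_⟩
        · have h6 := dist_ph P' α' z
          have h7 : (1 + ‖P'‖) * |α'| ≤ M * (3 * δ) := mul_le_mul hPM hα3 (abs_nonneg _) hM0.le
          have h8 := dist_triangle (ph P' α' z) z x
          have h9 : ρ ≤ ρ₂ := min_le_right _ _
          rw [mem_ball]; linarith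
        · intro h; exact hz2 (h.2 hzP)
      · left
        refine ⟨?_, fun h => hzP (h.2 hzS)⟩
        have h9 : ρ ≤ ρ₁ := min_le_left _ _
        rw [mem_ball]; linarith
    · left; exact ⟨hz5, hzS⟩
  have hmeas := measure_mono (μ := (volume : Measure (ℝ × ℝ))) hsub
  rw [hmp.measure_preimage
    (measurableSet_closedBall.inter hS.compl).nullMeasurableSet] at hmeas
  have hb1 := (hmeas.trans (measure_union_le _ _)).trans
    (add_le_add le_rfl (measure_union_le _ _))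
  rw [(mp_ph P' α').measure_preimage
    (measurableSet_ball.inter (meas_Df hS (continuous_ph' _ _).measurable)).nullMeasurableSet] at hb1
  have hb2 := hτ'.trans (hb1.trans (add_le_add hτ (add_le_add hD1 hD2)))
  rw [← ENNReal.ofReal_add hε0.le hε0.le, ← ENNReal.ofReal_add (by positivity) (by positivity),
    ENNReal.ofReal_le_ofReal_iff (by positivity)] at hb2
  have : 0 < τ ^ 2 := by positivity
  linarith

end Pool.Agent.Helper31.PS
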