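import Pool.Graph.R_seed8.TH103.BL.Orb

set_option autoImplicit false

/-!
The action of the rotations of the plane on the oriented lines. A line is a pair `(θ, s)`: direction
angle and signed distance from the origin.
-/

namespace Pool.Agent.Helper31.PS

open Set MeasureTheory Filter Topology Metric Pool.Agent.W780.BB

open scoped Real ENNReal

/-- the number `s` for the line through `P` with direction angle `θ` -/
noncomputable def sp (P : ℂ) (θ : ℝ) : ℝ := P.im * Real.cos θ - P.re * Real.sin θ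

lemma sp_eq (P : ℂ) (θ : ℝ) : sp P θ = (dir (-θ) * P).im := by
  rw [Complex.mul_im, dir_re, dir_im, Real.cos_neg, Real.sin_neg, sp]
  ring

lemma sp_add (P Q : ℂ) (θ : ℝ) : sp (P + Q) θ = sp P θ + sp Q θ := by
  unfold sp; simp; ring

lemma sp_sub (P Q : ℂ) (θ : ℝ) : sp (P - Q) θ = sp P θ - sp Q θ := by
  unfold sp; simp; ring

lemma sp_smul (c : ℝ) (P : ℂ) (θ : ℝ) : sp (c • P) θ = c * sp P θ := by
  unfold sp; simp; ring

lemma sp_dir (t : ℝ) (a θ : ℝ) : sp (t • dir a) θ = t * Real.sin (a - θ) := by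
  rw [sp_smul, sp, dir_re, dir_im, Real.sin_sub]

lemma continuous_sp : Continuous fun x : ℂ × ℝ => sp x.1 x.2 := by
  unfold sp; fun_prop

lemma abs_sp_le (P : ℂ) (θ : ℝ) : |sp P θ| ≤ ‖P‖ := by
  rw [sp_eq]
  refine (Complex.abs_im_le_norm _).trans ?_
  rw [norm_mul, norm_dir, one_mul]

lemma sp_lip (P : ℂ) (θ α : ℝ) : |sp P (θ + α) - sp P θ| ≤ ‖P‖ * |α| := by
  have h1 : sp P (θ + α) - sp P θ = ((dir (-θ + -α) - dir (-θ)) * P).im := by
    rw [sp_eq, sp_eq, sub_mul, Complex.sub_im]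
    congr 4; ring
  rw [h1]
  refine (Complex.abs_im_le_norm _).trans ?_
  rw [norm_mul, mul_comm]
  gcongr
  have := norm_dir_sub (-θ) (-α)
  rwa [abs_neg] at this

lemma sp_lip2 (P : ℂ) (a b α : ℝ) :
    |(sp P (a + α) - sp P a) - (sp P (b + α) - sp P b)| ≤ ‖P‖ * |α| * |a - b| := by
  have e1 : dir (-(a + α)) = dir (-a) * dir (-α) := by rw [← dir_add]; congr 1; ring
  have e2 : dir (-(b + α)) = dir (-b) * dir (-α) := by rw [← dir_add]; congr 1; ring
  have h1 : (sp P (a + α) - sp P a) - (sp P (b + α) - sp P b) =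
      ((dir (-a) - dir (-b)) * (dir (-α) - 1) * P).im := by
    rw [sp_eq, sp_eq, sp_eq, sp_eq, e1, e2, ← Complex.sub_im, ← Complex.sub_im, ← Complex.sub_im]
    congr 1; ring
  have h2 : ‖dir (-a) - dir (-b)‖ ≤ |a - b| := by
    have := norm_dir_sub (-b) (b - a)
    rw [show -b + (b - a) = -a by ring, abs_sub_comm b a] at this
    exact this
  have h3 : ‖dir (-α) - 1‖ ≤ |α| := by
    have := norm_dir_sub 0 (-α)
    rw [zero_add, abs_neg] at this
    have h0 : dir 0 = 1 := by simp [dir]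
    rwa [h0] at this
  rw [h1]
  refine (Complex.abs_im_le_norm _).trans ?_
  rw [norm_mul, norm_mul]
  calc ‖dir (-a) - dir (-b)‖ * ‖dir (-α) - 1‖ * ‖P‖ ≤ |a - b| * |α| * ‖P‖ := by gcongr
    _ = ‖P‖ * |α| * |a - b| := by ring

/-- rotation of lines about `P` by the angle `α` -/
noncomputable def ph (P : ℂ) (α : ℝ) (x : ℝ × ℝ) : ℝ × ℝ :=
  (x.1 + α, x.2 + (sp P (x.1 + α) - sp P x.1))

lemma ph_zero (P : ℂ) (x : ℝ × ℝ) : ph P 0 x = x := by
  unfold ph; simp

lemma ph_ph (P : ℂ) (α β : ℝ) (x : ℝ × ℝ) : ph P α (ph P β x) = ph P (β + α) x := by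
  unfold ph
  ext
  · simp; ring
  · simp only [add_assoc]; ring

lemma ph_neg (P : ℂ) (α : ℝ) (x : ℝ × ℝ) : ph P α (ph P (-α) x) = x := by
  rw [ph_ph, neg_add_cancel, ph_zero]

lemma continuous_ph : Continuous fun x : (ℂ × ℝ) × (ℝ × ℝ) => ph x.1.1 x.1.2 x.2 := by
  unfold ph sp; fun_prop

lemma continuous_ph' (P : ℂ) (α : ℝ) : Continuous (ph P α) := by
  unfold ph sp; fun_prop

lemma mp_ph (P : ℂ) (α : ℝ) : MeasurePreserving (ph P α) := by
  have h1 : MeasurePreserving (fun x : ℝ × ℝ => (x.1 + α, x.2 + (sp P (x.1 + α) - sp P x.1)))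
      ((volume : Measure ℝ).prod (volume : Measure ℝ))
      ((volume : Measure ℝ).prod (volume : Measure ℝ)) := by
    refine MeasurePreserving.skew_product
      (g := fun t s => s + (sp P (t + α) - sp P t)) (measurePreserving_add_right volume α) ?_ ?_
    · have : Continuous (Function.uncurry fun t s => s + (sp P (t + α) - sp P t)) := by
        unfold sp Function.uncurry; fun_prop
      exact this.measurable
    · exact Filter.Eventually.of_forall fun t =>
        (measurePreserving_add_right volume (sp P (t + α) - sp P t)).map_eq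
  exact h1

lemma dist_ph (P : ℂ) (α : ℝ) (x : ℝ × ℝ) : dist (ph P α x) x ≤ (1 + ‖P‖) * |α| := by
  rw [Prod.dist_eq]
  refine max_le ?_ ?_
  · simp only [ph, Real.dist_eq, add_sub_cancel_left]
    nlinarith [norm_nonneg P, abs_nonneg α]
  · simp only [ph, Real.dist_eq, add_sub_cancel_left]
    nlinarith [sp_lip P x.1 α, norm_nonneg P, abs_nonneg α]

lemma lip_ph (P : ℂ) (α : ℝ) (x y : ℝ × ℝ) :
    dist (ph P α x) (ph P α y) ≤ (1 + ‖P‖ * |α|) * dist x y := by
  have h1 : |x.1 - y.1| ≤ dist x y := by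
    rw [← Real.dist_eq, Prod.dist_eq]; exact le_max_left _ _
  have h2 : |x.2 - y.2| ≤ dist x y := by
    rw [← Real.dist_eq, Prod.dist_eq]; exact le_max_right _ _
  have h3 : 0 ≤ ‖P‖ * |α| := by positivity
  have h4 : 0 ≤ dist x y := dist_nonneg
  rw [Prod.dist_eq]
  refine max_le ?_ ?_
  · simp only [ph, Real.dist_eq, add_sub_add_right_eq_sub]
    nlinarith
  · simp only [ph, Real.dist_eq]
    have h5 := sp_lip2 P x.1 y.1 α
    calc |x.2 + (sp P (x.1 + α) - sp P x.1) - (y.2 + (sp P (y.1 + α) - sp P y.1))|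
        = |(x.2 - y.2) + ((sp P (x.1 + α) - sp P x.1) - (sp P (y.1 + α) - sp P y.1))| := by
          congr 1; ring
      _ ≤ |x.2 - y.2| + ‖P‖ * |α| * |x.1 - y.1| := (abs_add_le _ _).trans (by gcongr)
      _ ≤ dist x y + ‖P‖ * |α| * dist x y := by gcongr
      _ = _ := by ring

/-- the points where `S` and its image under `g` differ -/
def Df (S : Set (ℝ × ℝ)) (g : ℝ × ℝ → ℝ × ℝ) : Set (ℝ × ℝ) := {y | ¬ (g y ∈ S ↔ y ∈ S)}

lemma meas_Df {S : Set (ℝ × ℝ)} (hS : MeasurableSet S) {g : ℝ × ℝ → ℝ × ℝ} (hg : Measurable g) :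
    MeasurableSet (Df S g) := by
  have : Df S g = ((g ⁻¹' S) ∩ S ∪ (g ⁻¹' S)ᶜ ∩ Sᶜ)ᶜ := by
    ext y; simp only [Df, mem_ofPred_eq, mem_compl_iff, mem_union, mem_inter_iff, mem_preimage]; tauto
  rw [this]
  exact (((hg hS).inter hS).union ((hg hS).compl.inter hS.compl)).compl

/-- nearly invariant under small rotations about points near `P`, near the line `x` -/
def AI (S : Set (ℝ × ℝ)) (P : ℂ) (x : ℝ × ℝ) : Prop :=
  ∃ ρ : ℝ, 0 < ρ ∧ ∀ α : ℝ, |α| < ρ → ∀ ε : ℝ, 0 < ε → ∃ (P' : ℂ) (α' : ℝ),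
    ‖P' - P‖ < ε ∧ |α' - α| < ε ∧ volume (ball x ρ ∩ Df S (ph P' α')) ≤ ENNReal.ofReal ε

/-- the infinitesimal form of `AI` -/
def SI (S : Set (ℝ × ℝ)) (P : ℂ) (x : ℝ × ℝ) : Prop :=
  ∃ r : ℝ, 0 < r ∧ ∀ ε : ℝ, 0 < ε → ∃ (P' : ℂ) (β : ℝ),
    ‖P' - P‖ < ε ∧ β ≠ 0 ∧ |β| < ε ∧ volume (ball x r ∩ Df S (ph P' β)) ≤ ENNReal.ofReal (ε * |β|)

/-- constant near the line `x`, up to a null set -/
def LC (S : Set (ℝ × ℝ)) (x : ℝ × ℝ) : Prop :=
  ∃ ρ : ℝ, 0 < ρ ∧ ((∀ᵐ y : ℝ × ℝ, y ∈ ball x ρ → y ∈ S) ∨ (∀ᵐ y : ℝ × ℝ, y ∈ ball x ρ → y ∉ S))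

theorem AI_of_SI {S : Set (ℝ × ℝ)} (hS : MeasurableSet S) {P : ℂ} {x : ℝ × ℝ} (h : SI S P x) :
    AI S P x := by
  obtain ⟨r, hr, H⟩ := h
  set C : ℝ := ‖P‖ + 1 with hC
  have hC0 : 0 < C := by positivity
  set ρ : ℝ := r / (4 + 2 * C) with hρ
  have hρ0 : 0 < ρ := by positivity
  have hρr : (4 + 2 * C) * ρ = r := by rw [hρ]; field_simp
  refine ⟨ρ, hρ0, fun α hα ε hε => ?_⟩
  set e : ℝ := min (min (ε / (1 + ρ)) ε) (min 1 ρ) with he
  have he0 : 0 < e := by
    rw [he]; exact lt_min (lt_min (by positivity) hε) (lt_min one_pos hρ0)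
  have he1 : e ≤ ε / (1 + ρ) := (min_le_left _ _).trans (min_le_left _ _)
  have he2 : e ≤ ε := (min_le_left _ _).trans (min_le_right _ _)
  have he3 : e ≤ 1 := (min_le_right _ _).trans (min_le_left _ _)
  have he4 : e ≤ ρ := (min_le_right _ _).trans (min_le_right _ _)
  obtain ⟨P', β, hP', hβ0, hβ, hvol⟩ := H e he0
  have hP'C : ‖P'‖ ≤ C := by
    have := norm_le_norm_add_norm_sub' P' P
    rw [hC]; linarith [hP'.le]
  have hβp : 0 < |β| := abs_pos.2 hβ0
  -- the step with the right sign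
  obtain ⟨b, hb, hbs⟩ : ∃ b : ℝ, (b = β ∨ b = -β) ∧ (0 ≤ α → b = |β|) ∧ (α < 0 → b = -|β|) := by
    rcases le_or_gt 0 α with h1 | h1
    · rcases abs_cases β with ⟨h2, _⟩ | ⟨h2, _⟩
      · exact ⟨β, Or.inl rfl, fun _ => h2.symm, fun h => absurd h (not_lt.2 h1)⟩
      · exact ⟨-β, Or.inr rfl, fun _ => h2.symm, fun h => absurd h (not_lt.2 h1)⟩
    · rcases abs_cases β with ⟨h2, _⟩ | ⟨h2, _⟩
      · exact ⟨-β, Or.inr rfl, fun h => absurd h (not_le.2 h1), fun _ => by rw [h2]⟩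
      · exact ⟨β, Or.inl rfl, fun h => absurd h (not_le.2 h1), fun _ => by rw [h2]; ring⟩
  have hbabs : |b| = |β| := by rcases hb with h | h <;> simp [h]
  have hstep : volume (ball x ((2 + C) * ρ) ∩ Df S (ph P' b)) ≤ ENNReal.ofReal (e * |β|) := by
    rcases hb with h | h
    · rw [h]
      refine (measure_mono (inter_subset_inter_left _ (ball_subset_ball ?_))).trans hvol
      nlinarith
    · have hsub : ball x ((2 + C) * ρ) ∩ Df S (ph P' b) ⊆
          ph P' (-β) ⁻¹' (ball x r ∩ Df S (ph P' β)) := by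
        rintro z ⟨hz1, hz2⟩
        refine ⟨?_, ?_⟩
        · have h3 := dist_ph P' (-β) z
          rw [abs_neg] at h3
          have h4 : dist (ph P' (-β) z) x ≤ dist (ph P' (-β) z) z + dist z x := dist_triangle _ _ _
          have h5 : dist z x < (2 + C) * ρ := hz1
          rw [mem_ball]
          have h6 : (1 + ‖P'‖) * |β| ≤ (1 + C) * ρ := by
            apply mul_le_mul (by linarith) (by linarith) (abs_nonneg _) (by positivity)
          nlinarith
        · show ¬ (ph P' β (ph P' (-β) z) ∈ S ↔ ph P' (-β) z ∈ S)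
          rw [ph_neg]
          have h7 : ¬ (ph P' b z ∈ S ↔ z ∈ S) := hz2
          rw [h] at h7
          tauto
      refine (measure_mono hsub).trans ?_
      rw [(mp_ph P' (-β)).measure_preimage
        (measurableSet_ball.inter (meas_Df hS (continuous_ph' _ _).measurable)).nullMeasurableSet]
      exact hvol
  set m : ℕ := ⌊|α| / |β|⌋₊ with hm
  have hm1 : (m : ℝ) * |β| ≤ |α| := by
    have := Nat.floor_le (div_nonneg (abs_nonneg α) (abs_nonneg β))
    rwa [← hm, le_div_iff₀ hβp] at this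
  have hm2 : |α| < (m + 1 : ℝ) * |β| := by
    have := Nat.lt_floor_add_one (|α| / |β|)
    rwa [← hm, div_lt_iff₀ hβp] at this
  have hind : ∀ j : ℕ, j ≤ m →
      volume (ball x ρ ∩ Df S (ph P' (j * b))) ≤ j * ENNReal.ofReal (e * |β|) := by
    intro j
    induction j with
    | zero =>
      intro _
      have : Df S (ph P' ((0 : ℕ) * b)) = ∅ := by
        ext y
        simp [Df, ph_zero]
      rw [this]; simp
    | succ j ih =>
      intro hj
      have hsub : ball x ρ ∩ Df S (ph P' ((j + 1 : ℕ) * b)) ⊆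
          (ball x ρ ∩ Df S (ph P' (j * b))) ∪
            ph P' (j * b) ⁻¹' (ball x ((2 + C) * ρ) ∩ Df S (ph P' b)) := by
        rintro y ⟨hy1, hy2⟩
        by_cases h1 : y ∈ Df S (ph P' (j * b))
        · exact Or.inl ⟨hy1, h1⟩
        · right
          refine ⟨?_, ?_⟩
          · have h3 := dist_ph P' (j * b) y
            have h4 : dist (ph P' (j * b) y) x ≤ dist (ph P' (j * b) y) y + dist y x :=
              dist_triangle _ _ _
            have h5 : dist y x < ρ := hy1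
            have h6 : |(j : ℝ) * b| ≤ ρ := by
              rw [abs_mul, hbabs, Nat.abs_cast]
              have : (j : ℝ) ≤ m := by exact_mod_cast (by omega : j ≤ m)
              have : (j : ℝ) * |β| ≤ m * |β| := by gcongr
              linarith
            rw [mem_ball]
            have h7 : (1 + ‖P'‖) * |(j : ℝ) * b| ≤ (1 + C) * ρ := by
              apply mul_le_mul (by linarith) h6 (abs_nonneg _) (by positivity)
            nlinarith
          · have h8 : ¬ (ph P' ((j + 1 : ℕ) * b) y ∈ S ↔ y ∈ S) := hy2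
            have h9 : ph P' b (ph P' (j * b) y) = ph P' ((j + 1 : ℕ) * b) y := by
              rw [ph_ph]; congr 1; push_cast; ring
            show ¬ (ph P' b (ph P' (j * b) y) ∈ S ↔ ph P' (j * b) y ∈ S)
            rw [h9]
            have h10 : ph P' (j * b) y ∈ S ↔ y ∈ S := by
              by_contra h; exact h1 h
            rw [h10]; exact h8
      refine (measure_mono hsub).trans ((measure_union_le _ _).trans ?_)
      rw [(mp_ph P' (j * b)).measure_preimage
        (measurableSet_ball.inter (meas_Df hS (continuous_ph' _ _).measurable)).nullMeasurableSet]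
      have := ih (by omega)
      have h11 : (((j + 1 : ℕ) : ℝ≥0∞)) * ENNReal.ofReal (e * |β|) =
          (j : ℝ≥0∞) * ENNReal.ofReal (e * |β|) + ENNReal.ofReal (e * |β|) := by
        push_cast; ring
      rw [h11]
      exact add_le_add this hstep
  refine ⟨P', m * b, hP'.trans_le he2, ?_, ?_⟩
  · have h1 : |(m : ℝ) * b - α| < |β| := by
      rcases le_or_gt 0 α with h | h
      · rw [hbs.1 h]
        rw [abs_of_nonneg h] at hm1 hm2
        rw [abs_lt]; constructor <;> nlinarith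
      · rw [hbs.2 h]
        rw [abs_of_neg h] at hm1 hm2
        rw [abs_lt]; constructor <;> nlinarith
    linarith
  · refine (hind m le_rfl).trans ?_
    rw [← ENNReal.ofReal_natCast, ← ENNReal.ofReal_mul (Nat.cast_nonneg _)]
    apply ENNReal.ofReal_le_ofReal
    have h1 : (m : ℝ) * (e * |β|) ≤ e * ρ := by
      have : (m : ℝ) * |β| ≤ ρ := hm1.trans hα.le
      nlinarith
    have h2 : e * (1 + ρ) ≤ ε := by
      rwa [le_div_iff₀ (by positivity)] at he1
    nlinarith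

/-- local constancy is transported by the rotations -/
theorem LC_of_AI_LC {S : Set (ℝ × ℝ)} (hS : MeasurableSet S) {P : ℂ} {x : ℝ × ℝ}
    (h : AI S P x) : ∃ ρ : ℝ, 0 < ρ ∧ ∀ α : ℝ, |α| < ρ → LC S (ph P α x) → LC S x := by
  obtain ⟨ρ, hρ, H⟩ := h
  refine ⟨ρ, hρ, fun α hα => ?_⟩
  rintro ⟨τ, hτ, hc⟩
  -- continuity
  have hcont : ∀ᶠ q in 𝓝 ((P, α), x), ph q.1.1 q.1.2 q.2 ∈ ball (ph P α x) τ :=
    continuous_ph.continuousAt.eventually (ball_mem_nhds _ hτ)
  obtain ⟨κ, hκ, hk⟩ := Metric.eventually_nhds_iff.1 hcont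
  have hk' : ∀ (P' : ℂ) (α' : ℝ) (y : ℝ × ℝ), ‖P' - P‖ < κ → |α' - α| < κ → dist y x < κ →
      ph P' α' y ∈ ball (ph P α x) τ := by
    intro P' α' y h1 h2 h3
    refine hk (y := ((P', α'), y)) ?_
    rw [Prod.dist_eq, Prod.dist_eq]
    refine max_lt (max_lt ?_ ?_) h3
    · rwa [dist_eq_norm]
    · rwa [Real.dist_eq]
  refine ⟨min κ ρ, lt_min hκ hρ, ?_⟩
  have key : ∀ S' : Set (ℝ × ℝ), MeasurableSet S' → (∀ g, Df S' g = Df S g) →
      (∀ᵐ y : ℝ × ℝ, y ∈ ball (ph P α x) τ → y ∈ S') →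
      ∀ᵐ y : ℝ × ℝ, y ∈ ball x (min κ ρ) → y ∈ S' := by
    intro S' hS' hD hc
    have h0 : volume (ball (ph P α x) τ ∩ S'ᶜ) = 0 := by
      rw [ae_iff] at hc
      convert hc using 2
      ext y; simp
    rw [ae_iff]
    have h1 : {a : ℝ × ℝ | ¬ (a ∈ ball x (min κ ρ) → a ∈ S')} = ball x (min κ ρ) ∩ S'ᶜ := by
      ext y; simp [and_assoc]
    rw [h1]
    refine le_antisymm ?_ zero_le
    refine le_of_forall_pos_le_add fun ε hε => ?_
    rw [zero_add]
    rcases eq_top_or_lt_top ε with h | h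
    · rw [h]; exact le_top
    obtain ⟨P', α', h2, h3, h4⟩ := H α hα (min κ ε.toReal)
      (lt_min hκ (ENNReal.toReal_pos hε.ne' h.ne))
    have hsub : ball x (min κ ρ) ∩ S'ᶜ ⊆
        (ball x ρ ∩ Df S (ph P' α')) ∪ ph P' α' ⁻¹' (ball (ph P α x) τ ∩ S'ᶜ) := by
      rintro y ⟨hy1, hy2⟩
      have hyκ : dist y x < κ := lt_of_lt_of_le hy1 (min_le_left _ _)
      have hyρ : dist y x < ρ := lt_of_lt_of_le hy1 (min_le_right _ _)
      by_cases h5 : ph P' α' y ∈ S'
      · left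
        refine ⟨hyρ, ?_⟩
        rw [← hD]
        exact fun h6 => hy2 (h6.1 h5)
      · right
        exact ⟨hk' P' α' y (h2.trans_le (min_le_left _ _)) (h3.trans_le (min_le_left _ _)) hyκ, h5⟩
    refine (measure_mono hsub).trans ((measure_union_le _ _).trans ?_)
    rw [(mp_ph P' α').measure_preimage (measurableSet_ball.inter hS'.compl).nullMeasurableSet, h0,
      add_zero]
    refine h4.trans ?_
    refine (ENNReal.ofReal_le_ofReal (min_le_right _ _)).trans ?_
    exact ENNReal.ofReal_toReal_le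
  rcases hc with hc | hc
  · exact Or.inl (key S hS (fun _ => rfl) hc)
  · refine Or.inr (key Sᶜ hS.compl (fun g => ?_) hc)
    ext y; simp only [Df, mem_ofPred_eq, mem_compl_iff]; tauto

end Pool.Agent.Helper31.PS
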