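import Pool.Agent.Helper31.PS.Glob

set_option autoImplicit false

/-!
Invariant sets move with positive speed if the polygon is deformed.
-/

namespace Pool.Agent.Helper31.PS

open Set MeasureTheory Filter Topology Metric Pool.Agent.W780.BB Pool.Agent.W780.PG
  Pool.Agent.TH103.BL

open scoped Real ENNReal ComplexConjugate

variable {n : ℕ}

/-- a linear functional on the deformations -/
noncomputable def gl (p : Fin (n + 3) → ℂ) (i : Fin (n + 3)) (a b : ℝ) :
    (Fin (n + 3) → ℂ) →ₗ[ℝ] ℝ where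
  toFun v := (conj (p (i + 1) - p i) * ((a : ℂ) * v i + (b : ℂ) * v (i + 1))).im
  map_add' v w := by
    rw [← Complex.add_im]; congr 1
    simp only [Pi.add_apply]; ring
  map_smul' c v := by
    rw [RingHom.id_apply, smul_eq_mul, ← Complex.im_ofReal_mul]; congr 1
    simp only [Pi.smul_apply, Complex.real_smul]; ring

lemma gl_apply (p v : Fin (n + 3) → ℂ) (i : Fin (n + 3)) (a b : ℝ) :
    gl p i a b v = a * na p v i + b * nb p v i := by
  show (conj (p (i + 1) - p i) * ((a : ℂ) * v i + (b : ℂ) * v (i + 1))).im = _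
  rw [na, nb, ← Complex.im_ofReal_mul, ← Complex.im_ofReal_mul, ← Complex.add_im]
  congr 1; ring

lemma succ_ne (i : Fin (n + 3)) : i + 1 ≠ i := by
  intro h
  have h2 : (1 : Fin (n + 3)) = 0 := by
    have : i + 1 = i + 0 := by rw [h, add_zero]
    exact add_left_cancel this
  exact absurd h2 (by simp)

lemma gl_ne_top {p : Fin (n + 3) → ℂ} (hp : IsConvexPolygon p) (i : Fin (n + 3)) {a b : ℝ}
    (hab : a ≠ 0 ∨ b ≠ 0) : LinearMap.ker (gl p i a b) ≠ ⊤ := by
  intro h
  have h0 : ∀ v, gl p i a b v = 0 := by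
    intro v
    have : v ∈ LinearMap.ker (gl p i a b) := by rw [h]; trivial
    exact this
  set D : ℂ := p (i + 1) - p i with hD
  have hD0 : 0 < Complex.normSq D := by
    rw [Complex.normSq_pos]
    exact norm_pos_iff.1 (norm_side_pos hp i)
  have hc : (conj D * (Complex.I * D)).im = Complex.normSq D := by
    have : conj D * (Complex.I * D) = Complex.I * (D * conj D) := by ring
    rw [this, Complex.mul_conj]; simp
  rcases hab with h1 | h1
  · have h2 := h0 (Pi.single i (Complex.I * D))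
    rw [gl_apply, na, nb, Pi.single_eq_same, Pi.single_eq_of_ne (succ_ne i), ← hD, hc] at h2
    simp only [mul_zero, Complex.zero_im, add_zero] at h2
    rcases mul_eq_zero.1 h2 with h3 | h3
    · exact h1 h3
    · exact hD0.ne' h3
  · have h2 := h0 (Pi.single (i + 1) (Complex.I * D))
    rw [gl_apply, na, nb, Pi.single_eq_same, Pi.single_eq_of_ne (succ_ne i).symm, ← hD, hc] at h2
    simp only [mul_zero, Complex.zero_im, zero_add] at h2
    rcases mul_eq_zero.1 h2 with h3 | h3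
    · exact h1 h3
    · exact hD0.ne' h3

/-- position of the intersection point of the lines of the sides `i`, `j` on the line of `i` -/
noncomputable def lij (p : Fin (n + 3) → ℂ) (i j : Fin (n + 3)) : ℝ :=
  lft (p j) (p (j + 1)) (p i) / (lft (p j) (p (j + 1)) (p i) - lft (p j) (p (j + 1)) (p (i + 1)))

lemma lft_line (a b z w : ℂ) (lam : ℝ) :
    lft a b (z + lam • (w - z)) = (1 - lam) * lft a b z + lam * lft a b w := by
  unfold lft
  rw [← Complex.im_ofReal_mul, ← Complex.im_ofReal_mul, ← Complex.add_im]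
  congr 1
  rw [Complex.real_smul]; push_cast; ring

lemma lft_self_line (a b : ℂ) (lam : ℝ) : lft a b (a + lam • (b - a)) = 0 := by
  unfold lft
  have h : conj (b - a) * (a + lam • (b - a) - a) = (lam : ℂ) * ((b - a) * conj (b - a)) := by
    rw [Complex.real_smul]; ring
  rw [h, Complex.mul_conj, ← Complex.ofReal_mul, Complex.ofReal_im]

lemma lft_nonneg {p : Fin (n + 3) → ℂ} (hp : IsConvexPolygon p) (j k : Fin (n + 3)) :
    0 ≤ lft (p j) (p (j + 1)) (p k) := by
  by_cases h1 : k = j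
  · rw [h1]; unfold lft; simp
  by_cases h2 : k = j + 1
  · rw [h2]; unfold lft
    have : conj (p (j + 1) - p j) * (p (j + 1) - p j) =
      (p (j + 1) - p j) * conj (p (j + 1) - p j) := by ring
    rw [this, Complex.mul_conj]; simp
  exact (hp.pos j k h1 h2).le

lemma piv_eq_imp {p v : Fin (n + 3) → ℂ} (hp : IsConvexPolygon p) {i j : Fin (n + 3)}
    (hij : i ≠ j) (h : piv p v i = piv p v j) :
    na p v i / (na p v i - nb p v i) = lij p i j := by
  set lam : ℝ := na p v i / (na p v i - nb p v i) with hlam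
  set α : ℝ := lft (p j) (p (j + 1)) (p i) with hα
  set β : ℝ := lft (p j) (p (j + 1)) (p (i + 1)) with hβ
  have h1 : (1 - lam) * α + lam * β = 0 := by
    rw [hα, hβ, ← lft_line]
    have : p i + lam • (p (i + 1) - p i) = piv p v i := rfl
    rw [this, h]
    exact lft_self_line _ _ _
  have hαβ : ¬ (α = 0 ∧ β = 0) := by
    rintro ⟨h2, h3⟩
    have h4 : i = j + 1 := by
      by_contra h4
      exact (hp.pos j i hij h4).ne' h2
    have h5 : i + 1 = j := by
      by_contra h5
      have h6 : i + 1 ≠ j + 1 := fun h7 => hij (add_right_cancel h7)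
      exact (hp.pos j (i + 1) h5 h6).ne' h3
    rw [← h5, add_assoc] at h4
    have h6 : (1 : Fin (n + 3)) + 1 = 0 := by
      have : i + (1 + 1) = i + 0 := by rw [← h4, add_zero]
      exact add_left_cancel this
    have h7 : ((1 : Fin (n + 3)) + 1).val = 2 := by
      rw [Fin.val_add]
      simp only [Fin.val_one]
      exact Nat.mod_eq_of_lt (by omega)
    rw [h6] at h7
    simp at h7
  have hα0 : 0 ≤ α := lft_nonneg hp j i
  have hβ0 : 0 ≤ β := lft_nonneg hp j (i + 1)
  have hne : α - β ≠ 0 := by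
    intro h2
    have h3 : β = α := by linarith
    rw [h3] at h1
    have h4 : α = 0 := by linarith
    exact hαβ ⟨h4, by rw [h3, h4]⟩
  rw [lij, eq_div_iff hne]
  linarith

/-- the exceptional subspaces of deformations -/
noncomputable def bad (p : Fin (n + 3) → ℂ) :
    Fin (n + 3) ⊕ (Fin (n + 3) × Fin (n + 3)) → Submodule ℝ (Fin (n + 3) → ℂ)
  | Sum.inl i => LinearMap.ker (gl p i 1 (-1))
  | Sum.inr x => LinearMap.ker (gl p x.1 (1 - lij p x.1 x.2) (lij p x.1 x.2))

lemma bad_ne_top {p : Fin (n + 3) → ℂ} (hp : IsConvexPolygon p)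
    (l : Fin (n + 3) ⊕ (Fin (n + 3) × Fin (n + 3))) : bad p l ≠ ⊤ := by
  rcases l with i | x
  · exact gl_ne_top hp i (Or.inl one_ne_zero)
  · refine gl_ne_top hp x.1 ?_
    by_cases h2 : lij p x.1 x.2 = 0
    · left; rw [h2]; norm_num
    · right; exact h2

lemma na_ne_nb {p v : Fin (n + 3) → ℂ} (hv : ∀ l, v ∉ bad p l) (i : Fin (n + 3)) :
    na p v i ≠ nb p v i := by
  intro h
  apply hv (Sum.inl i)
  show gl p i 1 (-1) v = 0
  rw [gl_apply, h]; ring

lemma piv_ne {p v : Fin (n + 3) → ℂ} (hp : IsConvexPolygon p) (hv : ∀ l, v ∉ bad p l)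
    (i j : Fin (n + 3)) (hij : i ≠ j) : piv p v i ≠ piv p v j := by
  intro h
  have h1 := piv_eq_imp hp hij h
  apply hv (Sum.inr (i, j))
  show gl p i (1 - lij p i j) (lij p i j) v = 0
  rw [gl_apply, ← h1]
  have h2 : na p v i - nb p v i ≠ 0 := sub_ne_zero.2 (na_ne_nb hv i)
  field_simp
  ring

theorem trivial_of_close {p v : Fin (n + 3) → ℂ} (hp : IsConvexPolygon p)
    (hv : ∀ l, v ∉ bad p l) {A : Set (ℂ × ℝ)} (hA : MeasurableSet A) (hi : IsInvariant p A)
    (hclose : Close p v A) : IsTrivial p A := by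
  have hLm := measurable_Ln hi hA
  have hAI : ∀ i, ∀ x ∈ Xs p i, AI (Ln p A) (piv p v i) x := fun i x hx =>
    AI_of_SI hLm (SI_of_close hp hA hi hclose (na_ne_nb hv i) hx)
  have hLC : ∀ i, ∀ x ∈ Xs p i, LC (Ln p A) x := fun i x hx =>
    LC_Xs hp hLm (P := piv p v) (fun i => ⟨_, rfl⟩) (piv_ne hp hv) hAI hx
  exact trivial_of_ae hA hi (ae_const hp (fun i x hx => (refl_Ln hp hi hx).2) hLC)

/-- positive speed -/
theorem speed {p : Fin (n + 3) → ℂ} (hp : IsConvexPolygon p) {v : Fin (n + 3) → ℂ}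
    (hv : ∀ l, v ∉ bad p l) {A : Set (ℂ × ℝ)} (hA : MeasurableSet A)
    (hi : IsInvariant p A) (hnt : ¬ IsTrivial p A) : ∃ c : ℝ, 0 < c ∧ ∀ t : ℝ, 0 < t → t < c →
      ∀ q : Fin (n + 3) → ℂ, IsConvexPolygon q → ‖q - (p + t • v)‖ ≤ c * t →
      ∀ A' : Set (ℂ × ℝ), MeasurableSet A' → IsInvariant q A' →
      ENNReal.ofReal (c * t) ≤ volume (phase p ∩ Ds A A') := by
  by_contra hcon
  push Not at hcon
  apply hnt
  refine trivial_of_close (v := v) hp hv hA hi ?_
  intro ε hε
  obtain ⟨t, ht, htε, q, hq, hqv, A', hA', hi', hvol⟩ := hcon ε hε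
  exact ⟨t, ht, htε, q, hq, hqv, A', hA', hi', hvol.le⟩

/-- positive speed -/
theorem speed' {p : Fin (n + 3) → ℂ} (hp : IsConvexPolygon p) :
    ∃ F : Finset (Submodule ℝ (Fin (n + 3) → ℂ)), (∀ W ∈ F, W ≠ ⊤) ∧
      ∀ v : Fin (n + 3) → ℂ, (∀ W ∈ F, v ∉ W) → ∀ A : Set (ℂ × ℝ), MeasurableSet A →
      IsInvariant p A → ¬ IsTrivial p A → ∃ c : ℝ, 0 < c ∧ ∀ t : ℝ, 0 < t → t < c →
      ∀ q : Fin (n + 3) → ℂ, IsConvexPolygon q → ‖q - (p + t • v)‖ ≤ c * t →
      ∀ A' : Set (ℂ × ℝ), MeasurableSet A' → IsInvariant q A' →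
      ENNReal.ofReal (c * t) ≤ volume (phase p ∩ Ds A A') := by
  classical
  refine ⟨Finset.univ.image (bad p), ?_, ?_⟩
  · intro W hW
    obtain ⟨l, -, rfl⟩ := Finset.mem_image.1 hW
    exact bad_ne_top hp l
  · intro v hv A hA hi hnt
    exact speed hp (fun l => hv _ (Finset.mem_image.2 ⟨l, Finset.mem_univ _, rfl⟩)) hA hi hnt

end Pool.Agent.Helper31.PS
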