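import Pool.Agent.Helper31.PS.Speed

set_option autoImplicit false

/-!
From local to global: a set of lines which is nearly invariant under the small rotations about one
point on each side line is trivial.
-/

namespace Pool.Agent.Helper31.PS

open Set MeasureTheory Filter Topology Metric Pool.Agent.W780.BB Pool.Agent.W780.PG
  Pool.Agent.TH103.BL

open scoped Real ENNReal ComplexConjugate

variable {n : ℕ}

lemma countable_sp {z : ℂ} (hz : z ≠ 0) : {θ : ℝ | sp z θ = 0}.Countable := by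
  refine (countable_range (fun m : ℤ => Complex.arg z - m * π)).mono ?_
  intro θ hθ
  have h1 : sp z θ = ‖z‖ * Real.sin (Complex.arg z - θ) := by
    have h2 : z = ‖z‖ • dir (Complex.arg z) := by
      rw [Complex.real_smul, dir, Complex.norm_mul_exp_arg_mul_I]
    conv_lhs => rw [h2]
    rw [sp_dir]
  have h3 : sp z θ = 0 := hθ
  rw [h1, mul_eq_zero] at h3
  rcases h3 with h3 | h3
  · exact absurd (norm_eq_zero.1 h3) hz
  · obtain ⟨m, hm⟩ := Real.sin_eq_zero_iff.1 h3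
    exact ⟨m, by simp only; linarith⟩

lemma sp_eq_zero_of {z : ℂ} {β : ℝ} (h1 : sp z β = 0) (h2 : sp z (β + π / 2) = 0) : z = 0 := by
  unfold sp at h1 h2
  rw [Real.cos_add_pi_div_two, Real.sin_add_pi_div_two] at h2
  have h3 := Real.sin_sq_add_cos_sq β
  apply Complex.ext
  · rw [Complex.zero_re]
    linear_combination (-Real.sin β) * h1 - Real.cos β * h2 - z.re * h3
  · rw [Complex.zero_im]
    linear_combination (Real.cos β) * h1 - Real.sin β * h2 - z.im * h3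

lemma dense_sp {z : ℂ} (hz : z ≠ 0) (c r : ℝ) : Dense {α : ℝ | sp z (α + c) ≠ r} := by
  have key : ∀ (c r : ℝ) (U : Set ℝ), IsOpen U → (∀ α ∈ U, sp z (α + c) = r) →
      ∀ α ∈ U, sp z (α + (c + π / 2)) = 0 := by
    intro c r U hU h α hα
    have h1 : HasDerivAt (fun α => sp z (α + c)) (sp z (α + c + π / 2)) α :=
      (hasDerivAt_sp z (α + c)).hasDerivAt.comp_add_const α c
    have h2 : HasDerivAt (fun α => sp z (α + c)) 0 α := by
      have h3 : (fun α => sp z (α + c)) =ᶠ[𝓝 α] fun _ => r := by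
        filter_upwards [hU.mem_nhds hα] with β hβ
        exact h β hβ
      exact (hasDerivAt_const α r).congr_of_eventuallyEq h3
    rw [← add_assoc]
    exact h1.unique h2
  rw [dense_iff_inter_open]
  intro U hU hne
  by_contra hcon
  have h0 : ∀ α ∈ U, sp z (α + c) = r := by
    intro α hα
    by_contra h
    exact hcon ⟨α, hα, h⟩
  have h1 := key c r U hU h0
  have h2 := key (c + π / 2) 0 U hU h1
  obtain ⟨α, hα⟩ := hne
  have h3 := h1 α hα
  have h4 := h2 α hα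
  rw [← add_assoc] at h4
  exact hz (sp_eq_zero_of h3 h4)

lemma open_sp (z : ℂ) (c r : ℝ) : IsOpen {α : ℝ | sp z (α + c) ≠ r} := by
  have : Continuous fun α : ℝ => sp z (α + c) := by unfold sp; fun_prop
  exact isOpen_ne_fun this continuous_const

/-! combinatorics of the sign changes -/

lemma cyc {P : Fin (n + 3) → Prop} {j k : Fin (n + 3)} (hj : P j) (hk : ¬ P k) :
    ∃ i, P i ∧ ¬ P (i + 1) := by
  by_contra h
  push Not at h
  have h1 : ∀ m : ℕ, P (j + Fin.ofNat (n + 3) m) := by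
    intro m
    induction m with
    | zero =>
      have : Fin.ofNat (n + 3) 0 = 0 := rfl
      rw [this, add_zero]; exact hj
    | succ m ih =>
      have : Fin.ofNat (n + 3) (m + 1) = Fin.ofNat (n + 3) m + 1 := by
        apply Fin.ext
        simp [Fin.val_add, Fin.ofNat]
      rw [this, ← add_assoc]
      exact h _ ih
  have h2 := h1 (k - j).val
  have h3 : Fin.ofNat (n + 3) (k - j).val = k - j := by
    apply Fin.ext
    simp only [Fin.ofNat]
    exact Nat.mod_eq_of_lt (k - j).isLt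
  rw [h3, add_sub_cancel] at h2
  exact hk h2

lemma two_changes {e : Fin (n + 3) → ℝ} (h0 : ∀ k, e k ≠ 0) {i : Fin (n + 3)}
    (hi : e i * e (i + 1) < 0) : ∃ j, j ≠ i ∧ e j * e (j + 1) < 0 := by
  obtain ⟨a, b, ha, hb⟩ : ∃ a b, 0 < e a ∧ e b < 0 := by
    rcases mul_neg_iff.1 hi with ⟨h1, h2⟩ | ⟨h1, h2⟩
    · exact ⟨i, i + 1, h1, h2⟩
    · exact ⟨i + 1, i, h2, h1⟩
  obtain ⟨c, hc, hc'⟩ := cyc (P := fun k => 0 < e k) ha (not_lt.2 hb.le)
  obtain ⟨d, hd, hd'⟩ := cyc (P := fun k => e k < 0) hb (not_lt.2 ha.le)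
  by_cases hci : c = i
  · refine ⟨d, ?_, ?_⟩
    · rintro rfl
      rw [hci] at hc
      exact absurd hc (not_lt.2 hd.le)
    · exact mul_neg_of_neg_of_pos hd (lt_of_le_of_ne (not_lt.1 hd') (h0 _).symm)
  · exact ⟨c, hci, mul_neg_of_pos_of_neg hc (lt_of_le_of_ne (not_lt.1 hc') (h0 _))⟩

lemma one_change {e : Fin (n + 3) → ℝ} (h0 : ∀ k l, e k = 0 → e l = 0 → k = l)
    (hpos : ∃ k, 0 < e k) (hneg : ∃ k, e k < 0) : ∃ i, e i * e (i + 1) < 0 := by
  obtain ⟨a, ha⟩ := hpos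
  obtain ⟨b, hb⟩ := hneg
  obtain ⟨c, hc, hc'⟩ := cyc (P := fun k => 0 ≤ e k) ha.le (not_le.2 hb)
  obtain ⟨d, hd, hd'⟩ := cyc (P := fun k => e k ≤ 0) hb.le (not_le.2 ha)
  rw [not_le] at hc' hd'
  rcases hc.lt_or_eq with h1 | h1
  · exact ⟨c, mul_neg_of_pos_of_neg h1 hc'⟩
  rcases hd.lt_or_eq with h2 | h2
  · exact ⟨d, mul_neg_of_neg_of_pos h2 hd'⟩
  have : c = d := h0 c d h1.symm h2
  rw [this] at hc'
  exact absurd hc' (not_lt.2 hd'.le)

/-! the vertices on both sides of a line through the region -/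

lemma exists_neg {p : Fin (n + 3) → ℂ} {x : ℝ × ℝ} (hx : x ∈ Lall p) :
    ∃ k, sp (p k) x.1 - x.2 < 0 := by
  obtain ⟨z, hz, h1⟩ := hx
  by_contra hcon
  push Not at hcon
  have hsub : convexHull ℝ (range p) ⊆ {w | x.2 ≤ sp w x.1} := by
    apply convexHull_min
    · rintro _ ⟨k, rfl⟩
      have := hcon k
      show x.2 ≤ sp (p k) x.1
      linarith
    · intro a ha b hb s t hs ht hst
      have ha' : x.2 ≤ sp a x.1 := ha
      have hb' : x.2 ≤ sp b x.1 := hb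
      show x.2 ≤ sp (s • a + t • b) x.1
      rw [sp_add, sp_smul, sp_smul]
      have h3 := mul_le_mul_of_nonneg_left ha' hs
      have h4 := mul_le_mul_of_nonneg_left hb' ht
      have h5 : s * x.2 + t * x.2 = x.2 := by rw [← add_mul, hst, one_mul]
      linarith
  have hev : ∀ᶠ t in 𝓝 (0 : ℝ), z + t • dir (x.1 - π / 2) ∈ region p := by
    have hc : Continuous fun t : ℝ => z + t • dir (x.1 - π / 2) := by fun_prop
    refine ((open_region p).preimage hc).mem_nhds ?_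
    show z + (0 : ℝ) • dir (x.1 - π / 2) ∈ region p
    rw [zero_smul, add_zero]; exact hz
  obtain ⟨t, ht, ht0⟩ := ((hev.filter_mono nhdsWithin_le_nhds).and
    (self_mem_nhdsWithin : Ioi (0 : ℝ) ∈ 𝓝[>] (0 : ℝ))).exists
  have ht0' : (0 : ℝ) < t := ht0
  have h2 : x.2 ≤ sp (z + t • dir (x.1 - π / 2)) x.1 := hsub (interior_subset ht)
  rw [sp_add, sp_dir, h1] at h2
  have h3 : Real.sin (x.1 - π / 2 - x.1) = -1 := by
    rw [show x.1 - π / 2 - x.1 = -(π / 2) by ring, Real.sin_neg, Real.sin_pi_div_two]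
  rw [h3] at h2
  linarith

lemma exists_pos {p : Fin (n + 3) → ℂ} {x : ℝ × ℝ} (hx : x ∈ Lall p) :
    ∃ k, 0 < sp (p k) x.1 - x.2 := by
  obtain ⟨z, hz, h1⟩ := hx
  by_contra hcon
  push Not at hcon
  have hsub : convexHull ℝ (range p) ⊆ {w | sp w x.1 ≤ x.2} := by
    apply convexHull_min
    · rintro _ ⟨k, rfl⟩
      have := hcon k
      show sp (p k) x.1 ≤ x.2
      linarith
    · intro a ha b hb s t hs ht hst
      have ha' : sp a x.1 ≤ x.2 := ha
      have hb' : sp b x.1 ≤ x.2 := hb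
      show sp (s • a + t • b) x.1 ≤ x.2
      rw [sp_add, sp_smul, sp_smul]
      have h3 := mul_le_mul_of_nonneg_left ha' hs
      have h4 := mul_le_mul_of_nonneg_left hb' ht
      have h5 : s * x.2 + t * x.2 = x.2 := by rw [← add_mul, hst, one_mul]
      linarith
  have hev : ∀ᶠ t in 𝓝 (0 : ℝ), z + t • dir (x.1 + π / 2) ∈ region p := by
    have hc : Continuous fun t : ℝ => z + t • dir (x.1 + π / 2) := by fun_prop
    refine ((open_region p).preimage hc).mem_nhds ?_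
    show z + (0 : ℝ) • dir (x.1 + π / 2) ∈ region p
    rw [zero_smul, add_zero]; exact hz
  obtain ⟨t, ht, ht0⟩ := ((hev.filter_mono nhdsWithin_le_nhds).and
    (self_mem_nhdsWithin : Ioi (0 : ℝ) ∈ 𝓝[>] (0 : ℝ))).exists
  have ht0' : (0 : ℝ) < t := ht0
  have h2 : sp (z + t • dir (x.1 + π / 2)) x.1 ≤ x.2 := hsub (interior_subset ht)
  rw [sp_add, sp_dir, h1] at h2
  have h3 : Real.sin (x.1 + π / 2 - x.1) = 1 := by
    rw [show x.1 + π / 2 - x.1 = π / 2 by ring, Real.sin_pi_div_two]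
  rw [h3] at h2
  linarith

lemma exists_Xs {p : Fin (n + 3) → ℂ} {x : ℝ × ℝ} (hx : x ∈ Lall p)
    (h0 : ∀ k l, sp (p k) x.1 = x.2 → sp (p l) x.1 = x.2 → k = l) : ∃ i, x ∈ Xs p i :=
  one_change (e := fun k => sp (p k) x.1 - x.2)
    (fun k l hk hl => h0 k l (by linarith) (by linarith)) (exists_pos hx) (exists_neg hx)

/-- on all lines which cross a side -/
theorem LC_Xs {p : Fin (n + 3) → ℂ} (hp : IsConvexPolygon p) {S : Set (ℝ × ℝ)}
    (hS : MeasurableSet S) {P : Fin (n + 3) → ℂ}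
    (hPl : ∀ i, ∃ lam : ℝ, P i = p i + lam • (p (i + 1) - p i)) (hPd : ∀ i j, i ≠ j → P i ≠ P j)
    (hAI : ∀ i, ∀ x ∈ Xs p i, AI S (P i) x) {i : Fin (n + 3)} {x : ℝ × ℝ} (hx : x ∈ Xs p i) :
    LC S x := by
  obtain ⟨ρ, hρ, H⟩ := LC_of_AI_LC hS (hAI i x hx)
  -- small rotations keep the line in the set
  have hc : Continuous fun α : ℝ => ph (P i) α x := by unfold ph sp; fun_prop
  have hXo : IsOpen (Xs p i) := by
    have h1 : Continuous fun y : ℝ × ℝ => (p, y) := by fun_prop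
    have h2 := (continuous_Xs (n := n) i).comp h1
    exact isOpen_lt h2 continuous_const
  have hev : ∀ᶠ α in 𝓝 (0 : ℝ), ph (P i) α x ∈ Xs p i := by
    refine (hXo.preimage hc).mem_nhds ?_
    show ph (P i) 0 x ∈ Xs p i
    rw [ph_zero]; exact hx
  obtain ⟨ρ', hρ', H'⟩ := Metric.eventually_nhds_iff.1 hev
  -- a generic small rotation
  have hk : ∀ k, k ≠ i → k ≠ i + 1 → p k - P i ≠ 0 := by
    intro k h1 h2 h3
    have h4 := hp.pos i k h1 h2
    obtain ⟨lam, hlam⟩ := hPl i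
    rw [sub_eq_zero.1 h3, hlam, lft] at h4
    have h5 : conj (p (i + 1) - p i) * (p i + lam • (p (i + 1) - p i) - p i) =
        (lam : ℂ) * ((p (i + 1) - p i) * conj (p (i + 1) - p i)) := by
      rw [Complex.real_smul]; ring
    rw [h5, Complex.mul_conj, ← Complex.ofReal_mul, Complex.ofReal_im] at h4
    exact lt_irrefl _ h4
  set f : Fin (n + 3) ⊕ Fin (n + 3) → Set ℝ := Sum.elim
    (fun k => {α | k = i ∨ k = i + 1 ∨ sp (p k - P i) (α + x.1) ≠ x.2 - sp (P i) x.1})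
    (fun j => {α | j = i ∨ sp (P i - P j) (α + (x.1 + π / 2)) ≠ 0}) with hf
  have hfo : ∀ l, IsOpen (f l) ∧ Dense (f l) := by
    rintro (k | j)
    · by_cases h : k = i ∨ k = i + 1
      · have : f (Sum.inl k) = univ := by
          ext α; simp only [hf, Sum.elim_inl, mem_ofPred_eq, mem_univ, iff_true]; tauto
        rw [this]; exact ⟨isOpen_univ, dense_univ⟩
      · push Not at h
        have : f (Sum.inl k) = {α | sp (p k - P i) (α + x.1) ≠ x.2 - sp (P i) x.1} := by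
          ext α; simp only [hf, Sum.elim_inl, mem_ofPred_eq, h.1, h.2, false_or]
        rw [this]; exact ⟨open_sp _ _ _, dense_sp (hk k h.1 h.2) _ _⟩
    · by_cases h : j = i
      · have : f (Sum.inr j) = univ := by
          ext α; simp only [hf, Sum.elim_inr, mem_ofPred_eq, mem_univ, iff_true]; tauto
        rw [this]; exact ⟨isOpen_univ, dense_univ⟩
      · have : f (Sum.inr j) = {α | sp (P i - P j) (α + (x.1 + π / 2)) ≠ 0} := by
          ext α; simp only [hf, Sum.elim_inr, mem_ofPred_eq, h, false_or]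
        rw [this]
        exact ⟨open_sp _ _ _, dense_sp (sub_ne_zero.2 (hPd i j (Ne.symm h))) _ _⟩
  have hd : Dense (⋂ l, f l) := dense_iInter_of_isOpen (fun l => (hfo l).1) (fun l => (hfo l).2)
  obtain ⟨α, hα1, hα2⟩ := hd.inter_open_nonempty (ball 0 (min ρ ρ')) isOpen_ball
    ⟨0, mem_ball_self (lt_min hρ hρ')⟩
  have hαρ : |α| < ρ := by
    have : dist α 0 < min ρ ρ' := hα1
    rw [Real.dist_eq, sub_zero] at this
    exact this.trans_le (min_le_left _ _)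
  have hαρ' : dist α 0 < ρ' := lt_of_lt_of_le hα1 (min_le_right _ _)
  rw [mem_iInter] at hα2
  refine H α hαρ ?_
  set y : ℝ × ℝ := ph (P i) α x with hy
  have hyX : y ∈ Xs p i := H' hαρ'
  have hyX' : (sp (p i) y.1 - y.2) * (sp (p (i + 1)) y.1 - y.2) < 0 := hyX
  have he : ∀ k, sp (p k) y.1 - y.2 ≠ 0 := by
    intro k
    by_cases h1 : k = i
    · rw [h1]
      intro h; rw [h, zero_mul] at hyX'; exact lt_irrefl _ hyX'
    by_cases h2 : k = i + 1
    · rw [h2]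
      intro h; rw [h, mul_zero] at hyX'; exact lt_irrefl _ hyX'
    have h3 : α ∈ f (Sum.inl k) := hα2 (Sum.inl k)
    simp only [hf, Sum.elim_inl, mem_ofPred_eq, h1, h2, false_or] at h3
    intro h4
    apply h3
    rw [hy] at h4
    unfold ph at h4
    simp only at h4
    rw [sp_sub, add_comm α]
    linarith
  obtain ⟨j, hji, hj⟩ := two_changes (e := fun k => sp (p k) y.1 - y.2) he hyX'
  have h5 : α ∈ f (Sum.inr j) := hα2 (Sum.inr j)
  simp only [hf, Sum.elim_inr, mem_ofPred_eq, hji, false_or] at h5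
  refine LC_of_two hS (P := P i) (Q := P j) ?_ (hAI i y hyX) (hAI j y hj)
  have h6 : y.1 + π / 2 = α + (x.1 + π / 2) := by
    rw [hy]; unfold ph; simp only; ring
  rw [h6]; exact h5

/-- the directions of the lines through two vertices -/
def Exc (p : Fin (n + 3) → ℂ) : Set ℝ := {θ | ∃ k l, k ≠ l ∧ sp (p k - p l) θ = 0}

lemma countable_Exc {p : Fin (n + 3) → ℂ} (hp : IsConvexPolygon p) : (Exc p).Countable := by
  have : Exc p ⊆ ⋃ k, ⋃ l, {θ | k ≠ l ∧ sp (p k - p l) θ = 0} := by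
    rintro θ ⟨k, l, h⟩
    exact mem_iUnion.2 ⟨k, mem_iUnion.2 ⟨l, h⟩⟩
  refine Countable.mono this (countable_iUnion fun k => countable_iUnion fun l => ?_)
  by_cases h : k = l
  · have : {θ | k ≠ l ∧ sp (p k - p l) θ = 0} = ∅ := by
      ext θ; simp [h]
    rw [this]; exact countable_empty
  · refine (countable_sp (z := p k - p l) ?_).mono fun θ hθ => hθ.2
    exact sub_ne_zero.2 fun h' => h ((hB n p hp).1 h')

lemma open_LCp (S : Set (ℝ × ℝ)) :
    IsOpen {x : ℝ × ℝ | ∃ ρ : ℝ, 0 < ρ ∧ ∀ᵐ y : ℝ × ℝ, y ∈ ball x ρ → y ∈ S} := by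
  rw [Metric.isOpen_iff]
  rintro x ⟨ρ, hρ, h⟩
  refine ⟨ρ / 2, by positivity, fun y hy => ⟨ρ / 2, by positivity, ?_⟩⟩
  filter_upwards [h] with z hz hzy
  apply hz
  have h1 := dist_triangle z y x
  have h2 : dist y x < ρ / 2 := hy
  have h3 : dist z y < ρ / 2 := hzy
  rw [mem_ball]; linarith

lemma LCp_disj {S : Set (ℝ × ℝ)} {x : ℝ × ℝ}
    (h1 : ∃ ρ : ℝ, 0 < ρ ∧ ∀ᵐ y : ℝ × ℝ, y ∈ ball x ρ → y ∈ S)
    (h2 : ∃ ρ : ℝ, 0 < ρ ∧ ∀ᵐ y : ℝ × ℝ, y ∈ ball x ρ → y ∈ Sᶜ) : False := by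
  obtain ⟨r, hr, h1⟩ := h1
  obtain ⟨r', hr', h2⟩ := h2
  have h3 : ∀ᵐ y : ℝ × ℝ, y ∉ ball x (min r r') := by
    filter_upwards [h1, h2] with y h4 h5 h6
    exact h5 (ball_subset_ball (min_le_right _ _) h6) (h4 (ball_subset_ball (min_le_left _ _) h6))
  have h4 : volume (ball x (min r r')) = 0 := by
    rw [ae_iff] at h3
    refine measure_mono_null ?_ h3
    intro y hy
    exact not_not_intro hy
  exact (measure_ball_pos volume x (lt_min hr hr')).ne' h4

/-- the global statement -/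
theorem ae_const {p : Fin (n + 3) → ℂ} (hp : IsConvexPolygon p) {S : Set (ℝ × ℝ)}
    (hX : ∀ i, Xs p i ⊆ Lall p) (hLC : ∀ i, ∀ x ∈ Xs p i, LC S x) :
    (∀ᵐ y : ℝ × ℝ, y ∈ Lall p → y ∈ S) ∨ (∀ᵐ y : ℝ × ℝ, y ∈ Lall p → y ∉ S) := by
  set G : Set (ℝ × ℝ) → Set (ℝ × ℝ) := fun S =>
    {x : ℝ × ℝ | ∃ ρ : ℝ, 0 < ρ ∧ ∀ᵐ y : ℝ × ℝ, y ∈ ball x ρ → y ∈ S} with hG
  have hGo : ∀ S, IsOpen (G S) := fun S => open_LCp S
  have hLC' : ∀ i, ∀ x ∈ Xs p i, x ∈ G S ∪ G Sᶜ := by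
    intro i x hx
    obtain ⟨ρ, hρ, h⟩ := hLC i x hx
    rcases h with h | h
    · exact Or.inl ⟨ρ, hρ, h⟩
    · exact Or.inr ⟨ρ, hρ, h⟩
  set U : Set (ℝ × ℝ) → Set ℝ := fun S => Prod.fst '' (Lall p ∩ G S) with hU
  have hUo : ∀ S, IsOpen (U S) := fun S => isOpenMap_fst _ ((open_Lall p).inter (hGo S))
  -- finish
  have hfin : ∀ S, (∀ i, ∀ x ∈ Xs p i, x ∈ G S) → ∀ᵐ y : ℝ × ℝ, y ∈ Lall p → y ∈ S := by
    intro S hS
    have h1 : volume ((⋃ i, Xs p i) ∩ Sᶜ) = 0 := by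
      apply measure_null_of_locally_null
      rintro x ⟨hx, -⟩
      obtain ⟨i, hi⟩ := mem_iUnion.1 hx
      obtain ⟨ρ, hρ, h⟩ := hS i x hi
      refine ⟨ball x ρ ∩ ((⋃ i, Xs p i) ∩ Sᶜ), ?_, ?_⟩
      · exact inter_mem (mem_nhdsWithin_of_mem_nhds (ball_mem_nhds x hρ)) self_mem_nhdsWithin
      · refine measure_mono_null ?_ (ae_iff.1 h)
        rintro y ⟨hy1, -, hy2⟩ h3
        exact hy2 (h3 hy1)
    have h2 : volume ((Exc p) ×ˢ (univ : Set ℝ)) = 0 := by
      rw [Measure.volume_eq_prod, Measure.prod_prod, (countable_Exc hp).measure_zero volume, zero_mul]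
    have h3 := measure_union_null h1 h2
    rw [ae_iff]
    refine measure_mono_null ?_ h3
    intro y hy
    have hy' : ¬ (y ∈ Lall p → y ∈ S) := hy
    rw [Classical.not_imp] at hy'
    by_cases h4 : y.1 ∈ Exc p
    · exact Or.inr ⟨h4, mem_univ _⟩
    · left
      refine ⟨mem_iUnion.2 (exists_Xs hy'.1 ?_), hy'.2⟩
      intro k l hk hl
      by_contra hkl
      exact h4 ⟨k, l, hkl, by rw [sp_sub, hk, hl, sub_self]⟩
  -- the slices
  have hslice : ∀ θ, θ ∉ Exc p → θ ∈ U S → θ ∈ U Sᶜ → False := by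
    rintro θ hθ ⟨⟨θ₁, s₁⟩, ⟨hx₁, hx₁'⟩, rfl⟩ ⟨⟨θ₂, s₂⟩, ⟨hx₂, hx₂'⟩, h⟩
    simp only at h hθ
    subst h
    have hpre : IsPreconnected ((fun z => sp z θ₂) '' region p) := by
      refine ((convex_convexHull ℝ (range p)).interior.isPreconnected).image _ ?_
      have : Continuous fun z => sp z θ₂ := by unfold sp; fun_prop
      exact this.continuousOn
    have hc : Continuous fun s : ℝ => ((θ₂, s) : ℝ × ℝ) := by fun_prop
    have hcov : ((fun z => sp z θ₂) '' region p) ⊆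
        (fun s : ℝ => ((θ₂, s) : ℝ × ℝ)) ⁻¹' (G S) ∪ (fun s : ℝ => ((θ₂, s) : ℝ × ℝ)) ⁻¹' (G Sᶜ) := by
      rintro _ ⟨z, hz, rfl⟩
      have hzL : ((θ₂, sp z θ₂) : ℝ × ℝ) ∈ Lall p := ⟨z, hz, rfl⟩
      obtain ⟨i, hi⟩ := exists_Xs hzL (by
        intro k l hk hl
        by_contra hkl
        simp only at hk hl
        exact hθ ⟨k, l, hkl, by rw [sp_sub, hk, hl, sub_self]⟩)
      exact hLC' i _ hi
    obtain ⟨z₁, hz₁, hs₁⟩ := hx₁
    obtain ⟨z₂, hz₂, hs₂⟩ := hx₂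
    simp only at hs₁ hs₂
    obtain ⟨s, -, h1, h2⟩ := hpre _ _ ((hGo S).preimage hc) ((hGo Sᶜ).preimage hc) hcov
      ⟨s₁, ⟨z₁, hz₁, hs₁⟩, hx₁'⟩ ⟨s₂, ⟨z₂, hz₂, hs₂⟩, hx₂'⟩
    exact LCp_disj h1 h2
  -- all directions are covered
  have hcov : (univ : Set ℝ) ⊆ U S ∪ U Sᶜ := by
    intro θ _
    obtain ⟨z, hz⟩ : (region p).Nonempty := by
      rw [reg_eq hp]; exact (hB n p hp).2.2.2.2.2.1
    have ho : IsOpen {s : ℝ | ((θ, s) : ℝ × ℝ) ∈ Lall p} :=
      (open_Lall p).preimage (by fun_prop : Continuous fun s : ℝ => ((θ, s) : ℝ × ℝ))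
    have hfinite : (range fun k => sp (p k) θ).Countable := countable_range _
    obtain ⟨s, hs1, hs2⟩ := (hfinite.dense_compl ℝ).inter_open_nonempty _ ho
      ⟨sp z θ, ⟨z, hz, rfl⟩⟩
    obtain ⟨i, hi⟩ := exists_Xs (x := ((θ, s) : ℝ × ℝ)) hs1 (by
      intro k l hk _
      exact absurd ⟨k, hk⟩ hs2)
    rcases hLC' i _ hi with h | h
    · exact Or.inl ⟨_, ⟨hs1, h⟩, rfl⟩
    · exact Or.inr ⟨_, ⟨hs1, h⟩, rfl⟩
  by_cases h1 : (U S).Nonempty
  · by_cases h2 : (U Sᶜ).Nonempty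
    · exfalso
      obtain ⟨θ, -, h3⟩ := isPreconnected_univ _ _ (hUo S) (hUo Sᶜ) hcov
        (by simpa using h1) (by simpa using h2)
      obtain ⟨θ', h4, h5⟩ := ((countable_Exc hp).dense_compl ℝ).inter_open_nonempty _
        ((hUo S).inter (hUo Sᶜ)) ⟨θ, h3⟩
      exact hslice θ' h5 h4.1 h4.2
    · left
      apply hfin
      intro i x hx
      rcases hLC' i x hx with h | h
      · exact h
      · exact absurd ⟨x.1, x, ⟨hX i hx, h⟩, rfl⟩ h2
  · right
    have := hfin Sᶜ (by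
      intro i x hx
      rcases hLC' i x hx with h | h
      · exact absurd ⟨x.1, x, ⟨hX i hx, h⟩, rfl⟩ h1
      · exact h)
    exact this

end Pool.Agent.Helper31.PS
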