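import Pool.Agent.Helper31.PS.Dens

set_option autoImplicit false

/-!
The set of lines of an invariant set of states; reflections of lines.
-/

namespace Pool.Agent.Helper31.PS

open Set MeasureTheory Filter Topology Metric Pool.Agent.W780.BB Pool.Agent.W780.PG
  Pool.Agent.TH103.BL

open scoped Real ENNReal ComplexConjugate

variable {n : ℕ}

/-- the oriented lines, as pairs `(θ, s)`, of the states in `A` -/
def Ln (p : Fin (n + 3) → ℂ) (A : Set (ℂ × ℝ)) : Set (ℝ × ℝ) :=
  {x | ∃ z ∈ region p, sp z x.1 = x.2 ∧ (z, x.1) ∈ A}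

/-- the oriented lines which meet the region -/
def Lall (p : Fin (n + 3) → ℂ) : Set (ℝ × ℝ) := {x | ∃ z ∈ region p, sp z x.1 = x.2}

/-- the oriented lines which cross the open side `i` -/
def Xs (p : Fin (n + 3) → ℂ) (i : Fin (n + 3)) : Set (ℝ × ℝ) :=
  {x | (sp (p i) x.1 - x.2) * (sp (p (i + 1)) x.1 - x.2) < 0}

/-- reflection of oriented lines in the line through `a` with direction angle `τ` -/
noncomputable def rl (a : ℂ) (τ : ℝ) (x : ℝ × ℝ) : ℝ × ℝ :=
  (2 * τ - x.1, sp a (2 * τ - x.1) + sp a x.1 - x.2)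

lemma rl_rl (a : ℂ) (τ τ' : ℝ) (x : ℝ × ℝ) : rl a τ' (rl a τ x) = ph a (2 * (τ' - τ)) x := by
  have e : 2 * τ' - (2 * τ - x.1) = x.1 + 2 * (τ' - τ) := by ring
  unfold rl ph
  ext
  · simp only; ring
  · simp only [e]; ring

lemma rl_invol (a : ℂ) (τ : ℝ) (x : ℝ × ℝ) : rl a τ (rl a τ x) = x := by
  rw [rl_rl, sub_self, mul_zero, ph_zero]

lemma rl_congr (a : ℂ) (τ t : ℝ) (x : ℝ × ℝ) : rl (a + t • dir τ) τ x = rl a τ x := by
  unfold rl
  ext
  · rfl
  · simp only [sp_add, sp_dir]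
    have : Real.sin (τ - (2 * τ - x.1)) = - Real.sin (τ - x.1) := by
      rw [← Real.sin_neg]; congr 1; ring
    rw [this]; ring

lemma continuous_rl (a : ℂ) (τ : ℝ) : Continuous (rl a τ) := by
  unfold rl sp; fun_prop

lemma mp_rl (a : ℂ) (τ : ℝ) : MeasurePreserving (rl a τ) := by
  have h1 : MeasurePreserving (fun x : ℝ × ℝ => (2 * τ - x.1, sp a (2 * τ - x.1) + sp a x.1 - x.2))
      ((volume : Measure ℝ).prod (volume : Measure ℝ))
      ((volume : Measure ℝ).prod (volume : Measure ℝ)) := by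
    refine MeasurePreserving.skew_product
      (g := fun t s => sp a (2 * τ - t) + sp a t - s) (Measure.measurePreserving_sub_left volume (2 * τ)) ?_ ?_
    · have : Continuous (Function.uncurry fun t s => sp a (2 * τ - t) + sp a t - s) := by
        unfold sp Function.uncurry; fun_prop
      exact this.measurable
    · exact Filter.Eventually.of_forall fun t =>
        (Measure.measurePreserving_sub_left volume (sp a (2 * τ - t) + sp a t)).map_eq
  exact h1

/-- the points of the line -/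
noncomputable def pt (x : ℝ × ℝ) (u : ℝ) : ℂ := dir x.1 * (u + x.2 * Complex.I)

lemma dir_neg_mul (θ : ℝ) : dir (-θ) * dir θ = 1 := by
  rw [← dir_add]; simp [dir]

lemma sp_pt (x : ℝ × ℝ) (u : ℝ) : sp (pt x u) x.1 = x.2 := by
  rw [sp_eq, pt, ← mul_assoc, dir_neg_mul, one_mul]; simp

lemma eq_pt (z : ℂ) (θ : ℝ) : z = pt (θ, sp z θ) (dir (-θ) * z).re := by
  have h : (((dir (-θ) * z).re : ℂ) + ((sp z θ : ℝ) : ℂ) * Complex.I) = dir (-θ) * z := by
    rw [sp_eq]; exact Complex.re_add_im _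
  unfold pt
  simp only
  rw [h, ← mul_assoc, mul_comm (dir θ), dir_neg_mul, one_mul]

lemma pt_add (x : ℝ × ℝ) (u v : ℝ) : pt x (u + v) = pt x u + v • dir x.1 := by
  unfold pt; rw [Complex.real_smul]; push_cast; ring

lemma same_line {z z' : ℂ} {θ : ℝ} (h : sp z θ = sp z' θ) : ∃ u : ℝ, z' = z + u • dir θ := by
  refine ⟨(dir (-θ) * z').re - (dir (-θ) * z).re, ?_⟩
  have h1 := eq_pt z θ
  have h2 := eq_pt z' θ
  have h3 := pt_add (θ, sp z θ) (dir (-θ) * z).re ((dir (-θ) * z').re - (dir (-θ) * z).re)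
  rw [add_sub_cancel, ← h1] at h3
  rw [← h3, h, ← h2]

theorem mem_Ln {p : Fin (n + 3) → ℂ} {A : Set (ℂ × ℝ)} (hA : IsInvariant p A) {z : ℂ} {θ : ℝ}
    (hz : z ∈ region p) : (θ, sp z θ) ∈ Ln p A ↔ (z, θ) ∈ A := by
  constructor
  · rintro ⟨z', hz', h1, h2⟩
    simp only at h1 h2
    obtain ⟨u, hu⟩ := same_line h1
    rw [hu] at hz ⊢
    exact (hA.free z' θ u hz' hz).1 h2
  · intro h
    exact ⟨z, hz, rfl, h⟩

theorem mem_Ln' {p : Fin (n + 3) → ℂ} {A : Set (ℂ × ℝ)} (hA : IsInvariant p A) {z : ℂ}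
    {x : ℝ × ℝ} (hz : z ∈ region p) (h : sp z x.1 = x.2) : x ∈ Ln p A ↔ (z, x.1) ∈ A := by
  rw [← mem_Ln hA hz, h]

lemma reg_eq {p : Fin (n + 3) → ℂ} (hp : IsConvexPolygon p) : region p = reg p := (hH n p hp).2

lemma open_region (p : Fin (n + 3) → ℂ) : IsOpen (region p) := isOpen_interior

lemma continuous_pt : Continuous fun x : (ℝ × ℝ) × ℝ => pt x.1 x.2 := by
  unfold pt dir; fun_prop

theorem measurable_Ln {p : Fin (n + 3) → ℂ} {A : Set (ℂ × ℝ)} (hA : IsInvariant p A)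
    (hm : MeasurableSet A) : MeasurableSet (Ln p A) := by
  have h : Ln p A = ⋃ u : ℚ, {x : ℝ × ℝ | pt x u ∈ region p ∧ (pt x u, x.1) ∈ A} := by
    ext x
    simp only [mem_iUnion, mem_ofPred_eq]
    constructor
    · rintro ⟨z, hz, h1, h2⟩
      have h3 : z = pt x (dir (-x.1) * z).re := by
        have := eq_pt z x.1
        rwa [h1] at this
      have h4 : IsOpen {u : ℝ | pt x u ∈ region p} :=
        (open_region p).preimage (continuous_pt.comp (by fun_prop : Continuous fun u : ℝ => (x, u)))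
      obtain ⟨u, hu⟩ := Rat.denseRange_cast.exists_mem_open h4 ⟨(dir (-x.1) * z).re, by
        show pt x _ ∈ region p
        rw [← h3]; exact hz⟩
      refine ⟨u, hu, ?_⟩
      rw [← mem_Ln' hA hu (sp_pt x u)]
      exact ⟨z, hz, h1, h2⟩
    · rintro ⟨u, h1, h2⟩
      exact ⟨pt x u, h1, sp_pt x u, h2⟩
  rw [h]
  refine MeasurableSet.iUnion fun u => ?_
  have hc : Continuous fun x : ℝ × ℝ => pt x u :=
    continuous_pt.comp (by fun_prop : Continuous fun x : ℝ × ℝ => (x, ((u : ℚ) : ℝ)))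
  exact ((open_region p).measurableSet.preimage hc.measurable).inter
    (hm.preimage (hc.prodMk continuous_fst).measurable)

lemma open_Lall (p : Fin (n + 3) → ℂ) : IsOpen (Lall p) := by
  have h : Lall p = ⋃ u : ℝ, {x : ℝ × ℝ | pt x u ∈ region p} := by
    ext x
    simp only [mem_iUnion, mem_ofPred_eq]
    constructor
    · rintro ⟨z, hz, h1⟩
      have h3 : z = pt x (dir (-x.1) * z).re := by
        have := eq_pt z x.1
        rwa [h1] at this
      exact ⟨_, by rw [← h3]; exact hz⟩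
    · rintro ⟨u, h1⟩
      exact ⟨pt x u, h1, sp_pt x u⟩
  rw [h]
  refine isOpen_iUnion fun u => (open_region p).preimage ?_
  exact continuous_pt.comp (by fun_prop : Continuous fun x : ℝ × ℝ => (x, u))

lemma Ln_sub_Lall (p : Fin (n + 3) → ℂ) (A : Set (ℂ × ℝ)) : Ln p A ⊆ Lall p := by
  rintro x ⟨z, hz, h1, _⟩
  exact ⟨z, hz, h1⟩

lemma sp_periodic (z : ℂ) (θ : ℝ) (m : ℤ) : sp z (θ + m * (2 * π)) = sp z θ := by
  unfold sp; rw [Real.cos_add_int_mul_two_pi, Real.sin_add_int_mul_two_pi]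

lemma A_periodic {p : Fin (n + 3) → ℂ} {A : Set (ℂ × ℝ)} (hA : IsInvariant p A) (z : ℂ) (θ : ℝ)
    (m : ℤ) : (z, θ + m * (2 * π)) ∈ A ↔ (z, θ) ∈ A := by
  induction m using Int.induction_on with
  | zero => simp
  | succ k ih =>
    have h1 : θ + (((k : ℤ) + 1 : ℤ) : ℝ) * (2 * π) = θ + ((k : ℤ) : ℝ) * (2 * π) + 2 * π := by
      push_cast; ring
    rw [← ih, h1]
    exact hA.periodic z (θ + ((k : ℤ) : ℝ) * (2 * π))
  | pred k ih =>
    rw [← ih, ← hA.periodic z (θ + ((-(k : ℤ) - 1 : ℤ) : ℝ) * (2 * π))]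
    have : θ + ((-(k : ℤ) - 1 : ℤ) : ℝ) * (2 * π) + 2 * π = θ + ((-(k : ℤ) : ℤ) : ℝ) * (2 * π) := by
      push_cast; ring
    rw [this]

lemma Ln_periodic {p : Fin (n + 3) → ℂ} {A : Set (ℂ × ℝ)} (hA : IsInvariant p A) (θ s : ℝ) (m : ℤ) :
    (θ + m * (2 * π), s) ∈ Ln p A ↔ (θ, s) ∈ Ln p A := by
  constructor
  · rintro ⟨z, hz, h1, h2⟩
    simp only [sp_periodic, A_periodic hA] at h1 h2
    exact ⟨z, hz, h1, h2⟩
  · rintro ⟨z, hz, h1, h2⟩
    refine ⟨z, hz, ?_, ?_⟩
    · simpa only [sp_periodic] using h1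
    · simpa only [A_periodic hA] using h2

/-- points near an open side -/
lemma near_side {p : Fin (n + 3) → ℂ} (hp : IsConvexPolygon p) {i : Fin (n + 3)} {w u : ℂ}
    (hw : w ∈ openSegment ℝ (p i) (p (i + 1))) (hu : 0 < (conj (p (i + 1) - p i) * u).im) :
    ∀ᶠ e in 𝓝[>] (0 : ℝ), w + e • u ∈ region p := by
  rw [reg_eq hp]
  obtain ⟨-, h1, h2⟩ := (hB n p hp).2.2.2.2.2.2.2.2.2.2.2.2.1 i w hw
  have hlin : ∀ k (e : ℝ), lft (p k) (p (k + 1)) (w + e • u) =
      lft (p k) (p (k + 1)) w + e * (conj (p (k + 1) - p k) * u).im := by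
    intro k e
    unfold lft
    have : conj (p (k + 1) - p k) * (w + e • u - p k) =
        conj (p (k + 1) - p k) * (w - p k) + (e : ℂ) * (conj (p (k + 1) - p k) * u) := by
      rw [Complex.real_smul]; ring
    rw [this, Complex.add_im, Complex.im_ofReal_mul]
  show ∀ᶠ e in 𝓝[>] (0 : ℝ), ∀ k, 0 < lft (p k) (p (k + 1)) (w + e • u)
  rw [Filter.eventually_all]
  intro k
  by_cases hk : k = i
  · subst hk
    filter_upwards [self_mem_nhdsWithin] with e he
    have : (0 : ℝ) < e := he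
    rw [hlin, h1, zero_add]
    positivity
  · have hc : Tendsto (fun e : ℝ => lft (p k) (p (k + 1)) (w + e • u)) (𝓝 0)
        (𝓝 (lft (p k) (p (k + 1)) w)) := by
      simp only [hlin]
      have : Continuous fun e : ℝ => lft (p k) (p (k + 1)) w +
          e * (conj (p (k + 1) - p k) * u).im := by fun_prop
      have h3 := this.tendsto 0
      simpa using h3
    exact (hc.mono_left nhdsWithin_le_nhds).eventually (lt_mem_nhds (h2 k hk))

lemma tau_dir {p : Fin (n + 3) → ℂ} (i : Fin (n + 3)) :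
    p (i + 1) - p i = ‖p (i + 1) - p i‖ • dir (tau p i) := by
  rw [Complex.real_smul, tau, dir, Complex.norm_mul_exp_arg_mul_I]

lemma norm_side_pos {p : Fin (n + 3) → ℂ} (hp : IsConvexPolygon p) (i : Fin (n + 3)) :
    0 < ‖p (i + 1) - p i‖ := by
  rw [norm_pos_iff, sub_ne_zero]
  intro h
  have h1 := (hB n p hp).1 h
  have h2 : (1 : Fin (n + 3)) = 0 := by
    have : i + 1 = i + 0 := by rw [h1, add_zero]
    exact add_left_cancel this
  exact absurd h2 (by simp [Fin.ext_iff])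

lemma im_conj_dir (r τ φ : ℝ) : (conj ((r : ℝ) • dir τ) * dir φ).im = r * Real.sin (φ - τ) := by
  have h : conj ((r : ℝ) • dir τ) * dir φ = (r : ℂ) * dir (φ - τ) := by
    rw [Complex.real_smul, map_mul, Complex.conj_ofReal, mul_assoc]
    congr 1
    have : conj (dir τ) = dir (-τ) := by
      apply Complex.ext
      · rw [Complex.conj_re, dir_re, dir_re, Real.cos_neg]
      · rw [Complex.conj_im, dir_im, dir_im, Real.sin_neg]
    rw [this, ← dir_add]; congr 1; ring
  rw [h, Complex.im_ofReal_mul, dir_im]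

/-- reflection in a side does not change the set of lines, for the lines which cross the side -/
theorem refl_Ln {p : Fin (n + 3) → ℂ} (hp : IsConvexPolygon p) {A : Set (ℂ × ℝ)}
    (hA : IsInvariant p A) {i : Fin (n + 3)} {x : ℝ × ℝ} (hx : x ∈ Xs p i) :
    (x ∈ Ln p A ↔ rl (p i) (tau p i) x ∈ Ln p A) ∧ x ∈ Lall p := by
  set θ : ℝ := x.1 with hθ
  set s : ℝ := x.2 with hs
  set L : ℝ := ‖p (i + 1) - p i‖ with hL
  set τ : ℝ := tau p i with hτ
  have hL0 : 0 < L := norm_side_pos hp i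
  have hD : p (i + 1) - p i = L • dir τ := tau_dir i
  have hspD : sp (p (i + 1)) θ - sp (p i) θ = L * Real.sin (τ - θ) := by
    rw [← sp_sub, hD, sp_dir]
  have hX : (sp (p i) θ - s) * (sp (p (i + 1)) θ - s) < 0 := hx
  -- the crossing point
  have hne : sp (p i) θ - sp (p (i + 1)) θ ≠ 0 := by
    intro h
    have : sp (p (i + 1)) θ = sp (p i) θ := by linarith
    rw [this] at hX
    nlinarith [mul_self_nonneg (sp (p i) θ - s)]
  set lam : ℝ := (sp (p i) θ - s) / (sp (p i) θ - sp (p (i + 1)) θ) with hlam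
  have hlam1 : lam * (sp (p i) θ - sp (p (i + 1)) θ) = sp (p i) θ - s := div_mul_cancel₀ _ hne
  have hl0 : 0 < lam ∧ lam < 1 := by
    rcases mul_neg_iff.1 hX with ⟨h1, h2⟩ | ⟨h1, h2⟩
    · have h3 : 0 < sp (p i) θ - sp (p (i + 1)) θ := by linarith
      exact ⟨div_pos h1 h3, (div_lt_one h3).2 (by linarith)⟩
    · have h3 : sp (p i) θ - sp (p (i + 1)) θ < 0 := by linarith
      exact ⟨div_pos_of_neg_of_neg h1 h3, (div_lt_one_of_neg h3).2 (by linarith)⟩
  set w : ℂ := p i + lam • (p (i + 1) - p i) with hw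
  have hwseg : w ∈ openSegment ℝ (p i) (p (i + 1)) := by
    refine ⟨1 - lam, lam, by linarith [hl0.2], hl0.1, by ring, ?_⟩
    rw [hw, smul_sub, sub_smul, one_smul]; ring
  have hwsp : sp w θ = s := by
    rw [hw, sp_add, sp_smul, sp_sub]; linarith
  have hwrl : rl w τ x = rl (p i) τ x := by
    rw [hw, hD, smul_smul, rl_congr]
  have hθ' : 2 * τ - (2 * τ - θ) = θ := by ring
  rcases mul_neg_iff.1 hX with ⟨h1, h2⟩ | ⟨h1, h2⟩
  · -- the line enters
    have hsin : 0 < Real.sin (θ - τ) := by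
      have : L * Real.sin (τ - θ) < 0 := by linarith
      have h3 : Real.sin (τ - θ) < 0 := by
        by_contra h; push Not at h; nlinarith
      rw [← neg_sub, Real.sin_neg]; linarith
    have hin1 : 0 < (conj (p (i + 1) - p i) * dir θ).im := by
      rw [hD, im_conj_dir]; positivity
    have hin2 : 0 < (conj (p (i + 1) - p i) * (-dir (2 * τ - θ))).im := by
      rw [hD, mul_neg, Complex.neg_im, im_conj_dir]
      have : Real.sin (2 * τ - θ - τ) = - Real.sin (θ - τ) := by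
        rw [← Real.sin_neg]; congr 1; ring
      rw [this]
      have := mul_pos hL0 hsin
      linarith
    obtain ⟨e, ⟨he1, he2⟩, he0⟩ := (((near_side hp hwseg hin1).and
      (near_side hp hwseg hin2)).and self_mem_nhdsWithin).exists
    have he0' : (0 : ℝ) < e := he0
    rw [smul_neg, ← sub_eq_add_neg] at he2
    have hsp1 : sp (w + e • dir θ) x.1 = x.2 := by
      rw [sp_add, sp_dir, ← hθ, sub_self, Real.sin_zero, mul_zero, add_zero, hwsp]
    refine ⟨?_, ⟨_, he1, hsp1⟩⟩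
    have hsp2 : sp (w - e • dir (2 * τ - θ)) (rl (p i) τ x).1 = (rl (p i) τ x).2 := by
      rw [← hwrl, sp_sub]
      show sp w (2 * τ - θ) - sp (e • dir (2 * τ - θ)) (2 * τ - θ) = sp w (2 * τ - θ) + sp w θ - s
      rw [sp_dir, sub_self, Real.sin_zero, mul_zero, hwsp]; ring
    rw [mem_Ln' hA he1 hsp1, mem_Ln' hA he2 hsp2]
    have h5 := hA.reflect i w hwseg (2 * τ - θ) e e he0' he0' he2 (by rw [← hτ, hθ']; exact he1)
    rw [← hτ, hθ'] at h5
    exact h5.symm
  · -- the line leaves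
    have hsin : 0 < Real.sin (τ - θ) := by
      have : 0 < L * Real.sin (τ - θ) := by linarith
      by_contra h; push Not at h; nlinarith
    have hin1 : 0 < (conj (p (i + 1) - p i) * dir (2 * τ - θ)).im := by
      rw [hD, im_conj_dir, show 2 * τ - θ - τ = τ - θ by ring]; positivity
    have hin2 : 0 < (conj (p (i + 1) - p i) * (-dir θ)).im := by
      rw [hD, mul_neg, Complex.neg_im, im_conj_dir]
      have : Real.sin (θ - τ) = - Real.sin (τ - θ) := by
        rw [← Real.sin_neg]; congr 1; ring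
      rw [this]
      have := mul_pos hL0 hsin
      linarith
    obtain ⟨e, ⟨he1, he2⟩, he0⟩ := (((near_side hp hwseg hin1).and
      (near_side hp hwseg hin2)).and self_mem_nhdsWithin).exists
    have he0' : (0 : ℝ) < e := he0
    rw [smul_neg, ← sub_eq_add_neg] at he2
    have hsp1 : sp (w - e • dir θ) x.1 = x.2 := by
      rw [sp_sub, sp_dir, ← hθ, sub_self, Real.sin_zero, mul_zero, sub_zero, hwsp]
    refine ⟨?_, ⟨_, he2, hsp1⟩⟩
    have hsp2 : sp (w + e • dir (2 * τ - θ)) (rl (p i) τ x).1 = (rl (p i) τ x).2 := by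
      rw [← hwrl, sp_add]
      show sp w (2 * τ - θ) + sp (e • dir (2 * τ - θ)) (2 * τ - θ) = sp w (2 * τ - θ) + sp w θ - s
      rw [sp_dir, sub_self, Real.sin_zero, mul_zero, hwsp]; ring
    rw [mem_Ln' hA he2 hsp1, mem_Ln' hA he1 hsp2]
    exact hA.reflect i w hwseg θ e e he0' he0' he2 he1

end Pool.Agent.Helper31.PS
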