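import Pool.Agent.Helper31.PS.Box

set_option autoImplicit false

/-!
Invariant sets of nearby polygons: the first order condition.
-/

namespace Pool.Agent.Helper31.PS

open Set MeasureTheory Filter Topology Metric Pool.Agent.W780.BB Pool.Agent.W780.PG
  Pool.Agent.TH103.BL

open scoped Real ENNReal ComplexConjugate

variable {n : ℕ}

lemma dir_periodic (a : ℝ) (m : ℤ) : dir (a + m * (2 * π)) = dir a := by
  apply Complex.ext
  · rw [dir_re, dir_re, Real.cos_add_int_mul_two_pi]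
  · rw [dir_im, dir_im, Real.sin_add_int_mul_two_pi]

lemma core {p q : Fin (n + 3) → ℂ} (hp : IsConvexPolygon p) (hq : IsConvexPolygon q)
    {A A' : Set (ℂ × ℝ)} (hA : IsInvariant p A) (hA' : IsInvariant q A') {i : Fin (n + 3)} {δ : ℝ}
    {m : ℤ} (hδ : tau q i = tau p i + δ + m * (2 * π)) {P' : ℂ} {lam mu : ℝ}
    (h1 : P' = p i + lam • (p (i + 1) - p i)) (h2 : P' = q i + mu • (q (i + 1) - q i))
    {y : ℝ × ℝ} (hy : y ∈ Xs p i) (hy1 : rl (p i) (tau p i) y ∈ Xs q i)
    (hD : y ∈ Df (Ln p A) (ph P' (2 * δ))) :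
    rl (p i) (tau p i) y ∈ Dl (Ln p A) (Ln q A') ∨ ph P' (2 * δ) y ∈ Dl (Ln p A) (Ln q A') := by
  set y₁ : ℝ × ℝ := rl (p i) (tau p i) y with hy₁
  have e1 : rl P' (tau p i) y = y₁ := by
    rw [h1, tau_dir i, smul_smul, rl_congr]
  have e2 : rl P' (tau p i + δ) y₁ = rl (q i) (tau p i + δ) y₁ := by
    rw [h2, tau_dir i, hδ, dir_periodic, smul_smul, rl_congr]
  have e4 : ph P' (2 * δ) y = rl P' (tau p i + δ) y₁ := by
    rw [← e1, rl_rl]; congr 1; ring
  have e3 : rl (q i) (tau q i) y₁ = ((ph P' (2 * δ) y).1 + ((2 * m : ℤ) : ℝ) * (2 * π),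
      (ph P' (2 * δ) y).2) := by
    have e5 : 2 * tau q i - y₁.1 = 2 * (tau p i + δ) - y₁.1 + ((2 * m : ℤ) : ℝ) * (2 * π) := by
      rw [hδ]; push_cast; ring
    rw [e4, e2]
    unfold rl
    rw [e5, sp_periodic]
  have s1 : y ∈ Ln p A ↔ y₁ ∈ Ln p A := (refl_Ln hp hA hy).1
  have s2 : y₁ ∈ Ln q A' ↔ ph P' (2 * δ) y ∈ Ln q A' := by
    rw [(refl_Ln hq hA' hy1).1, e3, Ln_periodic hA']
  have hD' : ¬ (ph P' (2 * δ) y ∈ Ln p A ↔ y ∈ Ln p A) := hD
  by_contra hcon
  push Not at hcon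
  have c1 : y₁ ∈ Ln p A ↔ y₁ ∈ Ln q A' := by
    by_contra h; exact hcon.1 h
  have c2 : ph P' (2 * δ) y ∈ Ln p A ↔ ph P' (2 * δ) y ∈ Ln q A' := by
    by_contra h; exact hcon.2 h
  exact hD' (by rw [c2, ← s2, ← c1, ← s1])

lemma tau_diff {p q : Fin (n + 3) → ℂ} {i : Fin (n + 3)} (hp : p (i + 1) - p i ≠ 0)
    (hq : q (i + 1) - q i ≠ 0) : ∃ m : ℤ,
    tau q i = tau p i + Complex.arg ((q (i + 1) - q i) / (p (i + 1) - p i)) + m * (2 * π) := by
  have h := Complex.arg_mul_coe_angle (div_ne_zero hq hp) hp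
  rw [div_mul_cancel₀ _ hp, ← Real.Angle.coe_add] at h
  obtain ⟨k, hk⟩ := Real.Angle.angle_eq_iff_two_pi_dvd_sub.1 h
  refine ⟨k, ?_⟩
  unfold tau
  linarith

lemma real_mul_of_im {D z : ℂ} (hD : D ≠ 0) (h : (conj D * z).im = 0) : ∃ mu : ℝ, z = mu • D := by
  refine ⟨(conj D * z).re / Complex.normSq D, ?_⟩
  have h1 : (conj D * z) = ((conj D * z).re : ℂ) := by
    apply Complex.ext
    · simp
    · rw [h]; simp
  have h2 : (Complex.normSq D : ℂ) ≠ 0 := by
    simpa using hD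
  have h3 : conj D ≠ 0 := by simpa using hD
  rw [Complex.real_smul, Complex.ofReal_div, div_mul_eq_mul_div, eq_div_iff h2,
    ← h1, ← Complex.mul_conj]
  ring

/-- first order displacement of the vertex `i` orthogonal to the side `i` -/
noncomputable def na (p v : Fin (n + 3) → ℂ) (i : Fin (n + 3)) : ℝ :=
  (conj (p (i + 1) - p i) * v i).im

/-- first order displacement of the vertex `i + 1` orthogonal to the side `i` -/
noncomputable def nb (p v : Fin (n + 3) → ℂ) (i : Fin (n + 3)) : ℝ :=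
  (conj (p (i + 1) - p i) * v (i + 1)).im

/-- the point about which the line of the side `i` turns -/
noncomputable def piv (p v : Fin (n + 3) → ℂ) (i : Fin (n + 3)) : ℂ :=
  p i + (na p v i / (na p v i - nb p v i)) • (p (i + 1) - p i)

/-- polygons near `p + t • v` have invariant sets at distance `o(t)` from `A` -/
def Close (p v : Fin (n + 3) → ℂ) (A : Set (ℂ × ℝ)) : Prop :=
  ∀ ε : ℝ, 0 < ε → ∃ t : ℝ, 0 < t ∧ t < ε ∧ ∃ q : Fin (n + 3) → ℂ, IsConvexPolygon q ∧
    ‖q - (p + t • v)‖ ≤ ε * t ∧ ∃ A' : Set (ℂ × ℝ), MeasurableSet A' ∧ IsInvariant q A' ∧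
      volume (phase p ∩ Ds A A') ≤ ENNReal.ofReal (ε * t)

lemma continuous_Xs (i : Fin (n + 3)) : Continuous fun x : (Fin (n + 3) → ℂ) × (ℝ × ℝ) =>
    (sp (x.1 i) x.2.1 - x.2.2) * (sp (x.1 (i + 1)) x.2.1 - x.2.2) := by
  have h1 : Continuous fun x : (Fin (n + 3) → ℂ) × (ℝ × ℝ) => (x.1 i, x.2.1) := by fun_prop
  have h2 : Continuous fun x : (Fin (n + 3) → ℂ) × (ℝ × ℝ) => (x.1 (i + 1), x.2.1) := by fun_prop
  have h3 := continuous_sp.comp h1
  have h4 := continuous_sp.comp h2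
  have h5 : Continuous fun x : (Fin (n + 3) → ℂ) × (ℝ × ℝ) => x.2.2 := by fun_prop
  exact (h3.sub h5).mul (h4.sub h5)

lemma rl_Xs {p : Fin (n + 3) → ℂ} {i : Fin (n + 3)} {x : ℝ × ℝ} (hx : x ∈ Xs p i) :
    rl (p i) (tau p i) x ∈ Xs p i := by
  have e : rl (p (i + 1)) (tau p i) x = rl (p i) (tau p i) x := by
    have : p (i + 1) = p i + ‖p (i + 1) - p i‖ • dir (tau p i) := by
      rw [← tau_dir i]; ring
    conv_lhs => rw [this]
    rw [rl_congr]
  have e2 : (rl (p (i + 1)) (tau p i) x).2 = (rl (p i) (tau p i) x).2 := by rw [e]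
  have hx' : (sp (p i) x.1 - x.2) * (sp (p (i + 1)) x.1 - x.2) < 0 := hx
  show (sp (p i) (rl (p i) (tau p i) x).1 - (rl (p i) (tau p i) x).2) *
    (sp (p (i + 1)) (rl (p i) (tau p i) x).1 - (rl (p i) (tau p i) x).2) < 0
  have h1 : sp (p i) (rl (p i) (tau p i) x).1 - (rl (p i) (tau p i) x).2 = -(sp (p i) x.1 - x.2) := by
    unfold rl; simp only; ring
  have h2 : sp (p (i + 1)) (rl (p i) (tau p i) x).1 - (rl (p i) (tau p i) x).2 =
      -(sp (p (i + 1)) x.1 - x.2) := by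
    rw [← e2]; unfold rl; simp only; ring
  rw [h1, h2]
  linarith

lemma le_of_mul_le {κ c : ℝ} (hκ : 0 < κ) {V : ℝ≥0∞} (h : ENNReal.ofReal κ * V ≤ ENNReal.ofReal c) :
    V ≤ ENNReal.ofReal (c / κ) := by
  rw [ENNReal.ofReal_div_of_pos hκ, ENNReal.le_div_iff_mul_le
    (Or.inl (by simpa using hκ)) (Or.inl ENNReal.ofReal_ne_top), mul_comm]
  exact h

theorem SI_of_close {p v : Fin (n + 3) → ℂ} (hp : IsConvexPolygon p) {A : Set (ℂ × ℝ)}
    (hA : MeasurableSet A) (hi : IsInvariant p A) (hc : Close p v A) {i : Fin (n + 3)}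
    (hab : na p v i ≠ nb p v i) {x : ℝ × ℝ} (hx : x ∈ Xs p i) : SI (Ln p A) (piv p v i) x := by
  set D : ℂ := p (i + 1) - p i with hD
  have hD0 : D ≠ 0 := by
    have := norm_side_pos hp i
    exact norm_pos_iff.1 this
  set x₁ : ℝ × ℝ := rl (p i) (tau p i) x with hx₁
  have hx₁X : x₁ ∈ Xs p i := rl_Xs hx
  obtain ⟨ρ₂, κ₂, η₂, hρ₂, hκ₂, hη₂, B₂⟩ := box hp (refl_Ln hp hi hx).2
  obtain ⟨ρ₁, κ₁, η₁, hρ₁, hκ₁, hη₁, B₁⟩ := box hp (refl_Ln hp hi hx₁X).2
  -- open conditions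
  obtain ⟨r₁, hr₁, R₁⟩ := Metric.eventually_nhds_iff.1
    (((continuous_Xs i).tendsto (p, x₁)).eventually (gt_mem_nhds hx₁X))
  obtain ⟨r₂, hr₂, R₂⟩ := Metric.eventually_nhds_iff.1
    (((continuous_Xs i).tendsto (p, x)).eventually (gt_mem_nhds hx))
  obtain ⟨r₃, hr₃, R₃⟩ := Metric.eventually_nhds_iff.1
    (((continuous_rl (p i) (tau p i)).tendsto x).eventually
      (ball_mem_nhds x₁ (lt_min hr₁ hρ₁)))
  set r : ℝ := min (min r₂ r₃) (ρ₂ / 2) with hr
  have hr0 : 0 < r := lt_min (lt_min hr₂ hr₃) (by positivity)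
  refine ⟨r, hr0, fun ε hε => ?_⟩
  -- sequences
  have hek : ∀ k : ℕ, (0 : ℝ) < 1 / ((k : ℝ) + 1) := fun k => by positivity
  choose t ht0 ht1 q hq hqv A' hA'm hA'i hvol using fun k : ℕ => hc (1 / ((k : ℝ) + 1)) (hek k)
  have hε0 : Tendsto (fun k : ℕ => 1 / ((k : ℝ) + 1)) atTop (𝓝 0) :=
    tendsto_one_div_add_atTop_nhds_zero_nat
  have ht : Tendsto t atTop (𝓝 0) :=
    tendsto_of_tendsto_of_tendsto_of_le_of_le tendsto_const_nhds hε0 (fun k => (ht0 k).le)
      (fun k => (ht1 k).le)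
  set e : ℕ → Fin (n + 3) → ℂ := fun k => (t k)⁻¹ • (q k - p) with he
  have heq : ∀ k, q k = p + t k • e k := by
    intro k
    rw [he]
    simp only
    rw [smul_smul, mul_inv_cancel₀ (ht0 k).ne', one_smul]
    abel
  have hev : Tendsto e atTop (𝓝 v) := by
    rw [tendsto_iff_norm_sub_tendsto_zero]
    refine squeeze_zero (fun k => norm_nonneg _) (fun k => ?_) hε0
    have h1 : e k - v = (t k)⁻¹ • (q k - (p + t k • v)) := by
      rw [he]
      simp only
      rw [← sub_sub, smul_sub (t k)⁻¹ (q k - p), smul_smul, inv_mul_cancel₀ (ht0 k).ne', one_smul]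
    rw [h1, norm_smul, Real.norm_eq_abs, abs_inv, abs_of_pos (ht0 k),
      inv_mul_le_iff₀ (ht0 k), mul_comm (t k)]
    exact hqv k
  have hev1 : ∀ j, Tendsto (fun k => e k j) atTop (𝓝 (v j)) := fun j =>
    (continuous_apply j).continuousAt.tendsto.comp hev
  have hqp : Tendsto q atTop (𝓝 p) := by
    have h1 : Tendsto (fun k => p + t k • e k) atTop (𝓝 (p + (0 : ℝ) • v)) :=
      tendsto_const_nhds.add (ht.smul hev)
    rw [zero_smul, add_zero] at h1
    refine h1.congr fun k => (heq k).symm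
  -- the quotient of the sides
  set g : ℂ := (v (i + 1) - v i) / D with hg
  set w : ℕ → ℂ := fun k => (q k (i + 1) - q k i) / D with hw
  set gk : ℕ → ℂ := fun k => (e k (i + 1) - e k i) / D with hgk
  have hgt : Tendsto gk atTop (𝓝 g) := ((hev1 (i + 1)).sub (hev1 i)).div_const D
  have hwk : ∀ k, w k = 1 + (t k : ℂ) * gk k := by
    intro k
    rw [hw, hgk]
    simp only
    rw [heq k]
    simp only [Pi.add_apply, Pi.smul_apply, Complex.real_smul]
    rw [eq_comm, eq_div_iff hD0, add_mul, one_mul, mul_assoc, div_mul_cancel₀ _ hD0, hD]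
    ring
  have htC : Tendsto (fun k => (t k : ℂ)) atTop (𝓝 0) := by
    have h1 := (Complex.continuous_ofReal.tendsto 0).comp ht
    rw [Complex.ofReal_zero] at h1
    exact h1
  have hwt : Tendsto w atTop (𝓝 1) := by
    have h1 : Tendsto (fun k => 1 + (t k : ℂ) * gk k) atTop (𝓝 (1 + 0 * g)) :=
      tendsto_const_nhds.add (htC.mul hgt)
    rw [zero_mul, add_zero] at h1
    exact h1.congr fun k => (hwk k).symm
  have hδt : Tendsto (fun k => Complex.arg (w k)) atTop (𝓝 0) := by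
    have h1 := (Complex.continuousAt_arg Complex.one_mem_slitPlane).tendsto.comp hwt
    rw [Complex.arg_one] at h1
    exact h1
  have hgim : g.im = (nb p v i - na p v i) / Complex.normSq D := by
    have h0 : Complex.normSq D ≠ 0 := by simpa using hD0
    rw [hg, Complex.div_im, na, nb, ← hD]
    simp only [Complex.mul_im, Complex.conj_re, Complex.conj_im, Complex.sub_re, Complex.sub_im]
    field_simp
    ring
  have hg0 : g.im ≠ 0 := by
    rw [hgim]
    exact div_ne_zero (sub_ne_zero.2 hab.symm) (by simpa using hD0)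
  have hga : 0 < |g.im| := abs_pos.2 hg0
  have hsin : ∀ᶠ k in atTop, t k * (|g.im| / 2) ≤ |Complex.arg (w k)| := by
    have h1 : Tendsto (fun k => |(gk k).im| / ‖w k‖) atTop (𝓝 (|g.im| / ‖(1 : ℂ)‖)) :=
      (((Complex.continuous_im.tendsto g).comp hgt).abs).div hwt.norm (by simp)
    rw [norm_one, div_one] at h1
    filter_upwards [h1.eventually (lt_mem_nhds (half_lt_self hga))] with k hk
    have h2 : Real.sin (Complex.arg (w k)) = t k * ((gk k).im / ‖w k‖) := by
      rw [Complex.sin_arg]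
      have h3 : (w k).im = t k * (gk k).im := by
        rw [hwk]; simp
      rw [h3, mul_div_assoc]
    have h4 : |Real.sin (Complex.arg (w k))| = t k * (|(gk k).im| / ‖w k‖) := by
      rw [h2, abs_mul, abs_of_pos (ht0 k), abs_div, abs_norm]
    calc t k * (|g.im| / 2) ≤ t k * (|(gk k).im| / ‖w k‖) := by
          exact mul_le_mul_of_nonneg_left hk.le (ht0 k).le
      _ = |Real.sin (Complex.arg (w k))| := h4.symm
      _ ≤ |Complex.arg (w k)| := Real.abs_sin_le_abs
  -- the centre of rotation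
  set num : ℕ → ℝ := fun k => (conj (q k (i + 1) - q k i) * e k i).im with hnum
  set den : ℕ → ℝ := fun k => (conj (e k (i + 1) - e k i) * D).im with hden
  have hqp1 : ∀ j, Tendsto (fun k => q k j) atTop (𝓝 (p j)) := fun j =>
    (continuous_apply j).continuousAt.tendsto.comp hqp
  have hnumt : Tendsto num atTop (𝓝 (na p v i)) :=
    (Complex.continuous_im.tendsto _).comp
      (((Complex.continuous_conj.tendsto _).comp ((hqp1 (i + 1)).sub (hqp1 i))).mul (hev1 i))
  have hdent : Tendsto den atTop (𝓝 (na p v i - nb p v i)) := by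
    have h1 : Tendsto den atTop (𝓝 ((conj (v (i + 1) - v i) * D).im)) :=
      (Complex.continuous_im.tendsto _).comp
        (((Complex.continuous_conj.tendsto _).comp ((hev1 (i + 1)).sub (hev1 i))).mul_const D)
    have h2 : (conj (v (i + 1) - v i) * D).im = na p v i - nb p v i := by
      rw [na, nb, ← hD]
      simp only [Complex.mul_im, Complex.conj_re, Complex.conj_im, Complex.sub_re, Complex.sub_im]
      ring
    rwa [h2] at h1
  have hab' : na p v i - nb p v i ≠ 0 := sub_ne_zero.2 hab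
  have hlam : Tendsto (fun k => num k / den k) atTop (𝓝 (na p v i / (na p v i - nb p v i))) :=
    hnumt.div hdent hab'
  set P : ℕ → ℂ := fun k => p i + (num k / den k) • D with hP
  have hPt : Tendsto P atTop (𝓝 (piv p v i)) :=
    tendsto_const_nhds.add (hlam.smul_const D)
  have hden0 : ∀ᶠ k in atTop, den k ≠ 0 := hdent.eventually_ne hab'
  have hsmall : Tendsto (fun k => (1 + ‖P k‖) * |2 * Complex.arg (w k)|) atTop (𝓝 0) := by
    have h1 : Tendsto (fun k => (1 + ‖P k‖) * |2 * Complex.arg (w k)|) atTop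
        (𝓝 ((1 + ‖piv p v i‖) * |2 * (0 : ℝ)|)) :=
      (tendsto_const_nhds.add hPt.norm).mul ((tendsto_const_nhds.mul hδt).abs)
    simpa using h1
  have hβt : Tendsto (fun k => |2 * Complex.arg (w k)|) atTop (𝓝 0) := by
    have h1 : Tendsto (fun k => |2 * Complex.arg (w k)|) atTop (𝓝 (|2 * (0 : ℝ)|)) :=
      (tendsto_const_nhds.mul hδt).abs
    simpa using h1
  have hεC : Tendsto (fun k : ℕ => 1 / ((k : ℝ) + 1) * (1 / κ₁ + 1 / κ₂)) atTop (𝓝 0) := by
    have := hε0.mul_const (1 / κ₁ + 1 / κ₂)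
    simpa using this
  have hPn : Tendsto (fun k => ‖P k - piv p v i‖) atTop (𝓝 0) :=
    tendsto_iff_norm_sub_tendsto_zero.1 hPt
  have hqn : Tendsto (fun k => ‖q k - p‖) atTop (𝓝 0) :=
    tendsto_iff_norm_sub_tendsto_zero.1 hqp
  obtain ⟨k, hk⟩ := (hsin.and (hden0.and ((hsmall.eventually (gt_mem_nhds (half_pos hρ₂))).and
    ((hβt.eventually (gt_mem_nhds hε)).and ((hPn.eventually (gt_mem_nhds hε)).and
    ((hqn.eventually (gt_mem_nhds (lt_min hr₁ (lt_min hη₁ hη₂)))).and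
    (hεC.eventually (gt_mem_nhds (mul_pos hε hga))))))))).exists
  obtain ⟨k1, k2, k3, k4, k5, k6, k7⟩ := hk
  have hDk0 : q k (i + 1) - q k i ≠ 0 := norm_pos_iff.1 (norm_side_pos (hq k) i)
  have hβ0 : Complex.arg (w k) ≠ 0 := by
    have : 0 < t k * (|g.im| / 2) := mul_pos (ht0 k) (half_pos hga)
    exact abs_pos.1 (this.trans_le k1)
  refine ⟨P k, 2 * Complex.arg (w k), k5, mul_ne_zero two_ne_zero hβ0, k4, ?_⟩
  obtain ⟨m, hm⟩ := tau_diff hD0 hDk0
  -- the centre is on the line of the side of the second polygon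
  obtain ⟨mu, hmu⟩ : ∃ mu : ℝ, P k - q k i = mu • (q k (i + 1) - q k i) := by
    apply real_mul_of_im hDk0
    have h1 : P k - q k i = ((num k / den k : ℝ) : ℂ) * D - (t k : ℂ) * e k i := by
      rw [hP]
      simp only
      rw [Complex.real_smul]
      have : q k i = p i + (t k : ℂ) * e k i := by
        conv_lhs => rw [heq k]
        simp
      rw [this]; ring
    have h2 : (conj (q k (i + 1) - q k i) * D).im = t k * den k := by
      have h3 : q k (i + 1) - q k i = D + (t k : ℂ) * (e k (i + 1) - e k i) := by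
        conv_lhs => rw [heq k]
        simp only [Pi.add_apply, Pi.smul_apply, Complex.real_smul]
        rw [hD]; ring
      rw [h3, map_add, map_mul, Complex.conj_ofReal, add_mul, Complex.add_im, mul_assoc,
        Complex.im_ofReal_mul]
      have h4 : (conj D * D).im = 0 := by
        rw [mul_comm, Complex.mul_conj]; simp
      rw [h4, zero_add]
    have h5 : conj (q k (i + 1) - q k i) * (P k - q k i) =
        ((num k / den k : ℝ) : ℂ) * (conj (q k (i + 1) - q k i) * D) -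
        (t k : ℂ) * (conj (q k (i + 1) - q k i) * e k i) := by
      rw [h1]; ring
    rw [h5, Complex.sub_im, Complex.im_ofReal_mul, Complex.im_ofReal_mul, h2]
    have h6 : (conj (q k (i + 1) - q k i) * e k i).im = num k := rfl
    rw [h6]
    field_simp
    ring
  have hmu' : P k = q k i + mu • (q k (i + 1) - q k i) := by rw [← hmu]; ring
  have hqr₁ : ‖q k - p‖ < r₁ := k6.trans_le (min_le_left _ _)
  have hqη₁ : ‖q k - p‖ < η₁ := k6.trans_le ((min_le_right _ _).trans (min_le_left _ _))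
  have hqη₂ : ‖q k - p‖ < η₂ := k6.trans_le ((min_le_right _ _).trans (min_le_right _ _))
  set Δ : Set (ℝ × ℝ) := Dl (Ln p A) (Ln (q k) (A' k)) with hΔ
  have hLm : MeasurableSet (Ln p A) := measurable_Ln hi hA
  have hLm' : MeasurableSet (Ln (q k) (A' k)) := measurable_Ln (hA'i k) (hA'm k)
  have hΔm : MeasurableSet Δ := meas_Dl hLm hLm'
  have v₁ := le_of_mul_le hκ₁ ((B₁ (q k) (hq k) hqη₁ A (A' k) hA (hA'm k) hi (hA'i k)).trans (hvol k))
  have v₂ := le_of_mul_le hκ₂ ((B₂ (q k) (hq k) hqη₂ A (A' k) hA (hA'm k) hi (hA'i k)).trans (hvol k))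
  have hsub : ball x r ∩ Df (Ln p A) (ph (P k) (2 * Complex.arg (w k))) ⊆
      rl (p i) (tau p i) ⁻¹' (ball x₁ ρ₁ ∩ Δ) ∪
        ph (P k) (2 * Complex.arg (w k)) ⁻¹' (ball x ρ₂ ∩ Δ) := by
    rintro y ⟨hy1, hy2⟩
    have hyr : dist y x < r := hy1
    have hyX : y ∈ Xs p i := R₂ (y := (p, y)) (by
      rw [Prod.dist_eq, dist_self]
      exact max_lt hr₂ (hyr.trans_le ((min_le_left _ _).trans (min_le_left _ _))))
    have hy3 : dist (rl (p i) (tau p i) y) x₁ < min r₁ ρ₁ :=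
      R₃ (hyr.trans_le ((min_le_left _ _).trans (min_le_right _ _)))
    have hyX1 : rl (p i) (tau p i) y ∈ Xs (q k) i := R₁ (y := (q k, rl (p i) (tau p i) y)) (by
      rw [Prod.dist_eq]
      refine max_lt ?_ (hy3.trans_le (min_le_left _ _))
      rw [dist_eq_norm]; exact hqr₁)
    rcases core hp (hq k) hi (hA'i k) hm rfl hmu' hyX hyX1 hy2 with h | h
    · left
      exact ⟨hy3.trans_le (min_le_right _ _), h⟩
    · right
      refine ⟨?_, h⟩
      have h7 := dist_ph (P k) (2 * Complex.arg (w k)) y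
      have h8 := dist_triangle (ph (P k) (2 * Complex.arg (w k)) y) y x
      have h9 : r ≤ ρ₂ / 2 := min_le_right _ _
      rw [mem_ball]
      linarith
  refine (measure_mono hsub).trans ((measure_union_le _ _).trans ?_)
  rw [(mp_rl (p i) (tau p i)).measure_preimage (measurableSet_ball.inter hΔm).nullMeasurableSet,
    (mp_ph (P k) _).measure_preimage (measurableSet_ball.inter hΔm).nullMeasurableSet]
  refine (add_le_add v₁ v₂).trans ?_
  have hp1 : 0 ≤ 1 / ((k : ℝ) + 1) * t k := mul_nonneg (hek k).le (ht0 k).le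
  rw [← ENNReal.ofReal_add (div_nonneg hp1 hκ₁.le) (div_nonneg hp1 hκ₂.le)]
  apply ENNReal.ofReal_le_ofReal
  rw [abs_mul, abs_of_pos (two_pos : (0 : ℝ) < 2)]
  have h10 : 1 / ((k : ℝ) + 1) * t k / κ₁ + 1 / ((k : ℝ) + 1) * t k / κ₂ =
      t k * (1 / ((k : ℝ) + 1) * (1 / κ₁ + 1 / κ₂)) := by ring
  rw [h10]
  calc t k * (1 / ((k : ℝ) + 1) * (1 / κ₁ + 1 / κ₂)) ≤ t k * (ε * |g.im|) :=
        mul_le_mul_of_nonneg_left k7.le (ht0 k).le
    _ = ε * (2 * (t k * (|g.im| / 2))) := by ring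
    _ ≤ ε * (2 * |Complex.arg (w k)|) := by gcongr

end Pool.Agent.Helper31.PS
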