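import Pool.Agent.Helper31.PS.Gen

set_option autoImplicit false

/-!
Families of sets of zero one-dimensional Hausdorff measure: almost every polygon has no nontrivial
invariant set in such a family.
-/

namespace Pool.Agent.Helper31.PS

open Set MeasureTheory Filter Topology Metric Pool.Agent.W780.BB Pool.Agent.W780.PG
  Pool.Agent.TH103.BL

open scoped Real ENNReal NNReal ComplexConjugate

variable {n : ℕ}

lemma vol_sep {N : ℕ} {S : Set (Fin N → ℂ)} {p₀ v : Fin N → ℂ} {M r κ : ℝ} (hM : 1 ≤ M)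
    (hS : S ⊆ closedBall p₀ 1) (hκ : M * r < κ) (hκ0 : 0 < κ)
    (hsep : ∀ p ∈ S, ∀ p' ∈ S, ∀ t : ℝ, 0 < t → t < 1 / M → M * r < t → t / M ≤ ‖p' - (p + t • v)‖) :
    volume S ≤ ENNReal.ofReal (M * κ) * volume (closedBall p₀ (1 + ‖v‖)) := by
  have hM0 : 0 < M := by linarith
  set K : Set (Fin N → ℂ) := closure S with hK
  have hKB : K ⊆ closedBall p₀ 1 := closure_minimal hS isClosed_closedBall
  have hKsep : ∀ p ∈ K, ∀ p' ∈ K, ∀ t : ℝ, 0 < t → t < 1 / M → M * r < t →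
      t / M ≤ ‖p' - (p + t • v)‖ := by
    intro p hp p' hp' t h1 h2 h3
    have hc : IsClosed {x : (Fin N → ℂ) × (Fin N → ℂ) | t / M ≤ ‖x.2 - (x.1 + t • v)‖} :=
      isClosed_le continuous_const (by fun_prop)
    have hsub : S ×ˢ S ⊆ {x : (Fin N → ℂ) × (Fin N → ℂ) | t / M ≤ ‖x.2 - (x.1 + t • v)‖} := by
      rintro ⟨a, b⟩ ⟨ha, hb⟩
      exact hsep a ha b hb t h1 h2 h3
    have h4 : ((p, p') : (Fin N → ℂ) × (Fin N → ℂ)) ∈ closure (S ×ˢ S) := by
      rw [closure_prod_eq]; exact ⟨hp, hp'⟩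
    exact closure_minimal hsub hc h4
  set J : ℕ := ⌈1 / (M * κ)⌉₊ with hJ
  have hMκ : 0 < M * κ := mul_pos hM0 hκ0
  have hJ1 : 1 / (M * κ) ≤ J := Nat.le_ceil _
  have hJ2 : (J : ℝ) < 1 / (M * κ) + 1 := Nat.ceil_lt_add_one (by positivity)
  have hJκ : ∀ j : ℕ, j < J → (j : ℝ) * κ < 1 / M := by
    intro j hj
    have h1 : (j : ℝ) + 1 ≤ J := by exact_mod_cast hj
    have h2 : (j : ℝ) < 1 / (M * κ) := by linarith
    rw [lt_div_iff₀ hMκ] at h2
    rw [lt_div_iff₀ hM0]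
    linarith
  set T : ℕ → Set (Fin N → ℂ) := fun j => (fun x => x + (-(((j : ℝ) * κ) • v))) ⁻¹' K with hT
  have hTm : ∀ j, MeasurableSet (T j) := fun j =>
    (isClosed_closure.preimage (by fun_prop)).measurableSet
  have hTv : ∀ j, volume (T j) = volume K := fun j => measure_preimage_add_right _ _ _
  have hdisj : ∀ j j' : ℕ, j < j' → j' < J → Disjoint (T j) (T j') := by
    intro j j' hjj hj'
    rw [Set.disjoint_left]
    intro x hx hx'
    have hx1 : x + (-(((j : ℝ) * κ) • v)) ∈ K := hx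
    have hx2 : x + (-(((j' : ℝ) * κ) • v)) ∈ K := hx'
    have h1 : (1 : ℝ) ≤ (j' : ℝ) - j := by
      have : (j : ℝ) + 1 ≤ j' := by exact_mod_cast hjj
      linarith
    have h2 : κ ≤ ((j' : ℝ) - j) * κ := by nlinarith
    have h3 : ((j' : ℝ) - j) * κ < 1 / M := by
      have := hJκ j' hj'
      have h4 : 0 ≤ (j : ℝ) * κ := by positivity
      nlinarith
    have h5 := hKsep _ hx2 _ hx1 (((j' : ℝ) - j) * κ) (by linarith) h3 (by linarith)
    have h6 : x + (-(((j : ℝ) * κ) • v)) - (x + (-(((j' : ℝ) * κ) • v)) +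
        (((j' : ℝ) - j) * κ) • v) = 0 := by
      rw [sub_mul, sub_smul]; abel
    rw [h6, norm_zero] at h5
    have h7 : 0 < ((j' : ℝ) - j) * κ / M := div_pos (by linarith) hM0
    linarith
  have hTB : ∀ j ∈ Finset.range J, T j ⊆ closedBall p₀ (1 + ‖v‖) := by
    intro j hj x hx
    have hx1 : x + (-(((j : ℝ) * κ) • v)) ∈ closedBall p₀ 1 := hKB hx
    rw [mem_closedBall, dist_eq_norm] at hx1 ⊢
    have h1 : x - p₀ = (x + (-(((j : ℝ) * κ) • v)) - p₀) + ((j : ℝ) * κ) • v := by abel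
    rw [h1]
    refine (norm_add_le _ _).trans (add_le_add hx1 ?_)
    rw [norm_smul, Real.norm_eq_abs, abs_of_nonneg (by positivity)]
    have h2 := hJκ j (Finset.mem_range.1 hj)
    have h3 : 1 / M ≤ 1 := by rw [div_le_one hM0]; exact hM
    have h4 : (j : ℝ) * κ ≤ 1 := by linarith
    exact mul_le_of_le_one_left (norm_nonneg v) h4
  have hsum : (J : ℝ≥0∞) * volume K ≤ volume (closedBall p₀ (1 + ‖v‖)) := by
    have h1 : volume (⋃ j ∈ Finset.range J, T j) = ∑ j ∈ Finset.range J, volume (T j) := by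
      apply measure_biUnion_finset
      · intro j hj j' hj' hne
        rcases lt_or_gt_of_ne hne with h | h
        · exact hdisj j j' h (Finset.mem_range.1 hj')
        · exact (hdisj j' j h (Finset.mem_range.1 hj)).symm
      · intro j _; exact hTm j
    have h2 : ∑ j ∈ Finset.range J, volume (T j) = (J : ℝ≥0∞) * volume K := by
      simp [hTv]
    rw [← h2, ← h1]
    exact measure_mono (iUnion₂_subset hTB)
  calc volume S ≤ volume K := measure_mono subset_closure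
    _ = ENNReal.ofReal (M * κ) * (ENNReal.ofReal (1 / (M * κ)) * volume K) := by
        rw [← mul_assoc, ← ENNReal.ofReal_mul hMκ.le, mul_one_div_cancel hMκ.ne',
          ENNReal.ofReal_one, one_mul]
    _ ≤ ENNReal.ofReal (M * κ) * ((J : ℝ≥0∞) * volume K) := by
        gcongr
        rw [← ENNReal.ofReal_natCast]
        exact ENNReal.ofReal_le_ofReal hJ1
    _ ≤ _ := by gcongr

/-- A family of sets of states is thin: in every bounded part of the plane it has zero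
one-dimensional Hausdorff measure, the distance of two sets being the measure of the set of states
where they differ. -/
def Thin (𝓕 : Set (Set (ℂ × ℝ))) : Prop :=
  ∀ R ε : ℝ, 0 < ε → ∃ (G : ℕ → Set (Set (ℂ × ℝ))) (r : ℕ → ℝ≥0∞), 𝓕 ⊆ ⋃ k, G k ∧
    ∑' k, r k ≤ ENNReal.ofReal ε ∧ ∀ k, ∀ A ∈ G k, ∀ B ∈ G k,
      volume ((closedBall (0 : ℂ) R ×ˢ Ico 0 (2 * π)) ∩ {x | ¬ (x ∈ A ↔ x ∈ B)}) ≤ r k

lemma exists_good {E : Type*} [NormedAddCommGroup E] [NormedSpace ℝ E] [FiniteDimensional ℝ E]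
    {ι : Type*} [Finite ι] (W : ι → Submodule ℝ E) (hW : ∀ l, W l ≠ ⊤) {D : Set E}
    (hD : Dense D) : ∃ v ∈ D, ∀ l, v ∉ W l := by
  have ho : ∀ l, IsOpen ((W l : Set E)ᶜ) := fun l =>
    (Submodule.closed_of_finiteDimensional (W l)).isOpen_compl
  have hd : ∀ l, Dense ((W l : Set E)ᶜ) := by
    intro l
    rw [← interior_eq_empty_iff_dense_compl]
    by_contra h
    exact hW l (Submodule.eq_top_of_nonempty_interior' _ (nonempty_iff_ne_empty.2 h))
  have hd' : Dense (⋂ l, ((W l : Set E)ᶜ)) := dense_iInter_of_isOpen ho hd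
  obtain ⟨x, hx⟩ := hd'.nonempty
  obtain ⟨v, hv1, hv2⟩ := hD.exists_mem_open (isOpen_iInter_of_finite ho) ⟨x, hx⟩
  exact ⟨v, hv1, fun l => mem_iInter.1 hv2 l⟩

/-- the polygons with a nontrivial invariant set in the family which moves with speed
`1 / (m + 1)` in the direction `v` -/
def BS (𝓕 : Set (Set (ℂ × ℝ))) (v : Fin (n + 3) → ℂ) (m : ℕ) (G : Set (Set (ℂ × ℝ))) :
    Set (Fin (n + 3) → ℂ) :=
  {p | IsConvexPolygon p ∧ ∃ A ∈ 𝓕, A ∈ G ∧ IsInvariant p A ∧ ∀ t : ℝ, 0 < t →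
    t < 1 / ((m : ℝ) + 1) → ∀ q : Fin (n + 3) → ℂ, IsConvexPolygon q →
    ‖q - (p + t • v)‖ ≤ 1 / ((m : ℝ) + 1) * t → ∀ A' : Set (ℂ × ℝ), MeasurableSet A' →
    IsInvariant q A' → ENNReal.ofReal (1 / ((m : ℝ) + 1) * t) ≤ volume (phase p ∩ Ds A A')}

lemma phase_sub {p : Fin (n + 3) → ℂ} {R : ℝ} (h : ‖p‖ ≤ R) :
    phase p ⊆ closedBall (0 : ℂ) R ×ˢ Ico 0 (2 * π) := by
  refine prod_mono ?_ le_rfl
  refine interior_subset.trans (convexHull_min ?_ (convex_closedBall _ _))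
  rintro _ ⟨k, rfl⟩
  rw [mem_closedBall, dist_zero_right]
  exact (norm_le_pi_norm p k).trans h

lemma vol_BS {𝓕 : Set (Set (ℂ × ℝ))} (hm : ∀ A ∈ 𝓕, MeasurableSet A) (v p₀ : Fin (n + 3) → ℂ)
    (m : ℕ) {G : Set (Set (ℂ × ℝ))} {r : ℝ≥0∞} (hr : r ≠ ⊤) {δ : ℝ} (hδ : 0 < δ)
    (hG : ∀ A ∈ G, ∀ B ∈ G,
      volume ((closedBall (0 : ℂ) (‖p₀‖ + 1) ×ˢ Ico 0 (2 * π)) ∩ {x | ¬ (x ∈ A ↔ x ∈ B)}) ≤ r) :
    volume (closedBall p₀ 1 ∩ BS 𝓕 v m G) ≤
      (ENNReal.ofReal (((m : ℝ) + 1) * ((m : ℝ) + 1)) * r +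
        ENNReal.ofReal (((m : ℝ) + 1) * δ)) * volume (closedBall p₀ (1 + ‖v‖)) := by
  have hM : (1 : ℝ) ≤ (m : ℝ) + 1 := by
    have : (0 : ℝ) ≤ m := Nat.cast_nonneg m
    linarith
  have hM0 : (0 : ℝ) < (m : ℝ) + 1 := by linarith
  have hr0 : 0 ≤ r.toReal := ENNReal.toReal_nonneg
  have h1 := vol_sep (S := closedBall p₀ 1 ∩ BS 𝓕 v m G) (p₀ := p₀) (v := v) (M := (m : ℝ) + 1)
    (r := r.toReal) (κ := ((m : ℝ) + 1) * r.toReal + δ) hM inter_subset_left (by linarith)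
    (by positivity) (by
      rintro p ⟨hp1, hp, A, hAF, hAG, hi, hsp⟩ p' ⟨hp1', hp', A', hAF', hAG', hi', -⟩ t ht0 ht1 ht2
      by_contra hcon
      push Not at hcon
      have h2 := hsp t ht0 ht1 p' hp' (by
        rw [one_div_mul_eq_div]; exact hcon.le) A' (hm A' hAF') hi'
      have h3 : volume (phase p ∩ Ds A A') ≤ r := by
        refine le_trans (measure_mono ?_) (hG A hAG A' hAG')
        refine inter_subset_inter (phase_sub ?_) (fun x hx => hx)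
        have h4 : ‖p - p₀‖ ≤ 1 := by rw [← dist_eq_norm]; exact hp1
        have h5 := norm_le_norm_add_norm_sub' p p₀
        linarith
      have h6 := h2.trans h3
      rw [ENNReal.ofReal_le_iff_le_toReal hr, one_div_mul_eq_div, div_le_iff₀ hM0] at h6
      linarith)
  refine h1.trans ?_
  gcongr
  rw [mul_add, ENNReal.ofReal_add (by positivity) (by positivity), ← mul_assoc,
    ENNReal.ofReal_mul (by positivity), ENNReal.ofReal_toReal hr]

theorem null_BS {𝓕 : Set (Set (ℂ × ℝ))} (hm : ∀ A ∈ 𝓕, MeasurableSet A) (hT : Thin 𝓕)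
    (v : Fin (n + 3) → ℂ) (m : ℕ) : volume (BS 𝓕 v m univ) = 0 := by
  apply measure_null_of_locally_null
  intro p₀ _
  refine ⟨closedBall p₀ 1 ∩ BS 𝓕 v m univ, inter_mem (mem_nhdsWithin_of_mem_nhds
    (closedBall_mem_nhds p₀ one_pos)) self_mem_nhdsWithin, ?_⟩
  set C : ℝ≥0∞ := volume (closedBall p₀ (1 + ‖v‖)) with hC
  have hCt : C ≠ ⊤ := (isCompact_closedBall _ _).measure_lt_top.ne
  set a : ℝ := (m : ℝ) + 1 with ha
  have ha0 : 0 < a := by rw [ha]; positivity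
  set c : ℝ≥0∞ := (ENNReal.ofReal (a * a) + ENNReal.ofReal a) * C with hc
  have hct : c ≠ ⊤ := ENNReal.mul_ne_top (ENNReal.add_ne_top.2
    ⟨ENNReal.ofReal_ne_top, ENNReal.ofReal_ne_top⟩) hCt
  have key : ∀ ε : ℝ, 0 < ε → volume (closedBall p₀ 1 ∩ BS 𝓕 v m univ) ≤ c * ENNReal.ofReal ε := by
    intro ε hε
    obtain ⟨G, r, hcov, hsum, hG⟩ := hT (‖p₀‖ + 1) ε hε
    have hε' : ENNReal.ofReal ε ≠ 0 := by
      rw [Ne, ENNReal.ofReal_eq_zero, not_le]; exact hε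
    obtain ⟨δ, hδ0, hδs⟩ := ENNReal.exists_pos_sum_of_countable hε' ℕ
    have hrt : ∀ k, r k ≠ ⊤ := by
      intro k
      have h1 : r k ≤ ENNReal.ofReal ε := (ENNReal.le_tsum k).trans hsum
      exact (h1.trans_lt ENNReal.ofReal_lt_top).ne
    have hsub : closedBall p₀ 1 ∩ BS 𝓕 v m univ ⊆ ⋃ k, closedBall p₀ 1 ∩ BS 𝓕 v m (G k) := by
      rintro p ⟨hp1, hp, A, hAF, -, h⟩
      obtain ⟨k, hk⟩ := mem_iUnion.1 (hcov hAF)
      exact mem_iUnion.2 ⟨k, hp1, hp, A, hAF, hk, h⟩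
    calc volume (closedBall p₀ 1 ∩ BS 𝓕 v m univ)
        ≤ volume (⋃ k, closedBall p₀ 1 ∩ BS 𝓕 v m (G k)) := measure_mono hsub
      _ ≤ ∑' k, volume (closedBall p₀ 1 ∩ BS 𝓕 v m (G k)) := measure_iUnion_le _
      _ ≤ ∑' k, (ENNReal.ofReal (a * a) * r k + ENNReal.ofReal a * (δ k : ℝ≥0∞)) * C := by
          refine ENNReal.tsum_le_tsum fun k => ?_
          have h1 := vol_BS hm v p₀ m (hrt k) (δ := δ k) (by exact_mod_cast hδ0 k) (hG k)
          rw [← ha, ENNReal.ofReal_mul ha0.le (q := (δ k : ℝ)), ENNReal.ofReal_coe_nnreal] at h1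
          exact h1
      _ = (ENNReal.ofReal (a * a) * (∑' k, r k) + ENNReal.ofReal a * ∑' k, (δ k : ℝ≥0∞)) * C := by
          rw [ENNReal.tsum_mul_right, ENNReal.tsum_add, ENNReal.tsum_mul_left,
            ENNReal.tsum_mul_left]
      _ ≤ (ENNReal.ofReal (a * a) * ENNReal.ofReal ε + ENNReal.ofReal a * ENNReal.ofReal ε) * C := by
          gcongr
      _ = c * ENNReal.ofReal ε := by rw [hc]; ring
  have hlim : Tendsto (fun k : ℕ => c * ENNReal.ofReal (1 / ((k : ℝ) + 1))) atTop (𝓝 (c * 0)) := by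
    refine ENNReal.Tendsto.const_mul ?_ (Or.inr hct)
    have h1 := (ENNReal.continuous_ofReal.tendsto 0).comp
      (tendsto_one_div_add_atTop_nhds_zero_nat (𝕜 := ℝ))
    rw [ENNReal.ofReal_zero] at h1
    exact h1
  rw [mul_zero] at hlim
  exact le_antisymm (ge_of_tendsto' hlim fun k => key _ (by positivity)) zero_le

/-- almost every polygon has no nontrivial invariant set in a thin family -/
theorem thin_ae {𝓕 : Set (Set (ℂ × ℝ))} (hm : ∀ A ∈ 𝓕, MeasurableSet A) (hT : Thin 𝓕) :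
    ∀ᵐ p : Fin (n + 3) → ℂ, IsConvexPolygon p → ∀ A ∈ 𝓕, IsInvariant p A → IsTrivial p A := by
  rw [ae_iff]
  have hD := TopologicalSpace.denseRange_denseSeq (Fin (n + 3) → ℂ)
  refine measure_mono_null (t := ⋃ j : ℕ, ⋃ m : ℕ,
    BS 𝓕 (TopologicalSpace.denseSeq (Fin (n + 3) → ℂ) j) m univ) ?_ ?_
  · intro p hp
    have hp' : ¬ (IsConvexPolygon p → ∀ A ∈ 𝓕, IsInvariant p A → IsTrivial p A) := hp
    push Not at hp'
    obtain ⟨hpc, A, hAF, hi, hnt⟩ := hp'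
    obtain ⟨v, ⟨j, rfl⟩, hv⟩ := exists_good (bad p) (bad_ne_top hpc) hD
    obtain ⟨c, hc, H⟩ := speed hpc hv (hm A hAF) hi hnt
    obtain ⟨m, hmc⟩ := exists_nat_one_div_lt hc
    refine mem_iUnion.2 ⟨j, mem_iUnion.2 ⟨m, hpc, A, hAF, mem_univ _, hi, ?_⟩⟩
    intro t ht0 ht1 q hq hqv A' hA' hi'
    have h1 : 1 / ((m : ℝ) + 1) * t ≤ c * t := mul_le_mul_of_nonneg_right hmc.le ht0.le
    exact (ENNReal.ofReal_le_ofReal h1).trans
      (H t ht0 (ht1.trans hmc) q hq (hqv.trans h1) A' hA' hi')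
  · exact measure_iUnion_null fun j => measure_iUnion_null fun m => null_BS hm hT _ m

/-- countable families are thin -/
theorem thin_countable {𝓕 : Set (Set (ℂ × ℝ))} (h : 𝓕.Countable) : Thin 𝓕 := by
  intro R ε hε
  rcases 𝓕.eq_empty_or_nonempty with h0 | h0
  · refine ⟨fun _ => ∅, fun _ => 0, by rw [h0]; exact empty_subset _, by simp, ?_⟩
    intro k A hA; exact absurd hA (by simp)
  · obtain ⟨f, hf⟩ := h.exists_eq_range h0
    refine ⟨fun k => {f k}, fun _ => 0, ?_, by simp, ?_⟩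
    · rw [hf]
      rintro _ ⟨k, rfl⟩
      exact mem_iUnion.2 ⟨k, rfl⟩
    · intro k A hA B hB
      rw [mem_singleton_iff.1 hA, mem_singleton_iff.1 hB]
      simp

end Pool.Agent.Helper31.PS
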